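import Pool.Agent.H90.HW.Main

/-!
Zeta functions: linear sections of Segre varieties suffice.
-/

namespace Pool.Agent.H90.HW

open Pool.Agent.H73.Zeta Finset
open scoped LinearAlgebra.Projectivization

variable {E : Set ℝ}

/-- The class of good and bounded families of counts is closed. -/
theorem closed_GB (hE : ∀ x : ℝ, x + 1 ∈ E ↔ x ∈ E) : Closed (GB E) where
  congr h hN := hN.congr h
  add hN hM := hN.add hM
  neg hN := hN.neg
  shift hN := by
    have := hN.shift hE 1
    simpa only [pow_one] using this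
  unshift hN := by
    apply GB.unshift hE (j := 1)
    simpa only [pow_one] using hN
  div hN := GB.div hE hN

theorem bdd_segre {n a b : ℕ} (T : Fin n → Fin a → Fin b → ℤ) : Bdd (segreCount T) := by
  have h1 : ∀ (p : Nat.Primes) (k : ℕ), k ≠ 0 → |(segreCount T p k : ℝ)| ≤
      ((1 : ℕ) : ℝ) * ((p : ℕ) : ℝ) ^ (k * (a + b)) := by
    intro p k hk
    have := Fintype.ofFinite (FF p k)
    have h2 : Nat.card {z : ℙ (FF p k) (Fin a → FF p k) × ℙ (FF p k) (Fin b → FF p k) //
        ∀ i, ∑ j, ∑ l, (T i j l : FF p k) * z.1.rep j * z.2.rep l = 0} ≤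
        Nat.card ((Fin a → FF p k) × (Fin b → FF p k)) := by
      apply Nat.card_le_card_of_injective (fun z => (z.1.1.rep, z.1.2.rep))
      rintro ⟨⟨x, y⟩, hxy⟩ ⟨⟨x', y'⟩, hxy'⟩ h
      simp only [Prod.mk.injEq] at h
      have hx : x = x' := by rw [← x.mk_rep, ← x'.mk_rep]; simp only [h.1]
      have hy : y = y' := by rw [← y.mk_rep, ← y'.mk_rep]; simp only [h.2]
      subst hx
      subst hy
      rfl
    have h3 : (Nat.card ((Fin a → FF p k) × (Fin b → FF p k)) : ℤ) = (p : ℤ) ^ (k * (a + b)) := by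
      rw [Nat.card_prod]
      push_cast
      rw [card_fun, card_fun, card_FF p hk, Fintype.card_fin, Fintype.card_fin]
      ring
    have h4 : (segreCount T p k : ℤ) ≤ (p : ℤ) ^ (k * (a + b)) := by
      rw [← h3]
      unfold segreCount
      exact_mod_cast h2
    have h5 : (0 : ℤ) ≤ segreCount T p k := by
      unfold segreCount
      exact Int.natCast_nonneg _
    rw [abs_of_nonneg (by exact_mod_cast h5), Nat.cast_one, one_mul]
    exact_mod_cast h4
  exact ⟨1, a + b, h1⟩

/-- Trilinear forms from linear sections of Segre varieties. -/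
theorem tri_of_segre (hE : ∀ x : ℝ, x + 1 ∈ E ↔ x ∈ E)
    (h : ∀ (n a b : ℕ) (T : Fin n → Fin a → Fin b → ℤ),
      (∀ i j l, T i j l = -1 ∨ T i j l = 0 ∨ T i j l = 1) → Good E (segreCount T)) : Tri E := by
  have hC := closed_GB hE
  have hs : ∀ (n a b : ℕ) (T : Fin n → Fin a → Fin b → ℤ),
      (∀ i j l, T i j l = -1 ∨ T i j l = 0 ∨ T i j l = 1) → GB E (segreCount T) :=
    fun n a b T hT => ⟨h n a b T hT, bdd_segre T⟩
  have hone : GB E (fun _ _ => 1) :=
    h90_one (m := 0) hC ((projIn_iff hC 0).2 (fun a b T hT => hs 1 a b T hT))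
  intro n a b T hT
  have hy : GB E (fun p k => cnt (fun z : (Fin a → FF p k) × (Fin b → FF p k) =>
      ∀ i, ∑ j, ∑ l, (T i j l : FF p k) * z.1 j * z.2 l = 0)) := by
    refine hC.congr (fun p k hk => ?_) (h90_sub hC (hC.add (h90_mul hC (h90_mul hC
      (hs n a b T hT))) (hC.add (h90_shift hC hone a) (h90_shift hC hone b))) hone)
    have h5 := cone (FF p k) n a b (fun i j l => (T i j l : FF p k))
    rw [card_FF p hk] at h5
    have h6 : ((p : ℤ) ^ k - 1) * (((p : ℤ) ^ k - 1) * segreCount T p k) = _ := h5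
    rw [h6]
    ring
  have ht : GB E (fun p k => (p : ℤ) ^ k * triCount T p k) := by
    refine hC.congr (fun p k hk => ?_) (hC.add (h90_shift hC hone (n + (a + b)))
      (h90_mul hC (h90_shift hC hy n)))
    have h5 := cnt_mult (K := FF p k) (ι := Fin n) (W := (Fin a → FF p k) × (Fin b → FF p k))
      (fun i w => ∑ j, ∑ l, (T i j l : FF p k) * w.1 j * w.2 l)
    have h6 : cnt (fun z : (Fin n → FF p k) × ((Fin a → FF p k) × (Fin b → FF p k)) =>
        ∑ i, z.1 i * ∑ j, ∑ l, (T i j l : FF p k) * z.2.1 j * z.2.2 l = 0) = triCount T p k := by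
      apply cnt_congr
      intro z
      have : ∑ i, z.1 i * ∑ j, ∑ l, (T i j l : FF p k) * z.2.1 j * z.2.2 l =
          ∑ i, ∑ j, ∑ l, (T i j l : FF p k) * z.1 i * z.2.1 j * z.2.2 l := by
        simp only [Finset.mul_sum]
        apply Finset.sum_congr rfl
        intro i _
        apply Finset.sum_congr rfl
        intro j _
        apply Finset.sum_congr rfl
        intro l _
        ring
      rw [this]
    rw [h6, card_FF p hk, Fintype.card_fin, Nat.card_prod] at h5
    push_cast at h5
    rw [card_fun, card_fun, card_FF p hk, Fintype.card_fin, Fintype.card_fin] at h5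
    rw [h5]
    ring
  exact (hC.unshift ht).1

/-- If the zeta functions of all linear sections of Segre varieties (over `ℤ`, by bilinear forms
with coefficients `0, 1, -1`) extend meromorphically with zeros and poles over `E`, then so do the
zeta functions of all projective schemes over all `ℤ[1/N]`. -/
theorem good_of_segre (hE : ∀ x : ℝ, x + 1 ∈ E ↔ x ∈ E)
    (h : ∀ (n a b : ℕ) (T : Fin n → Fin a → Fin b → ℤ),
      (∀ i j l, T i j l = -1 ∨ T i j l = 0 ∨ T i j l = 1) → Good E (segreCount T))
    {σ : Type} [Fintype σ] (F : Finset (MvPolynomial σ ℤ))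
    (hF : ∀ f ∈ F, ∃ d : ℕ, f.IsHomogeneous d) (N : ℕ) : Good E (projCount F N) :=
  (proj_of_tri (tri_of_segre hE h) hE hF N).1

end Pool.Agent.H90.HW
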