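import Pool.Agent.H90.HW.Stmts

/-!
From projective schemes to linear sections of Segre varieties.
-/

namespace Pool.Agent.H90.HW

open Pool.Agent.H73.Zeta Finset
open scoped LinearAlgebra.Projectivization

section AB

variable {C : Counts → Prop}

theorem h90_sub (hC : Closed C) {N M : Counts} (hN : C N) (hM : C M) :
    C (fun p k => N p k - M p k) :=
  hC.congr (fun p k _ => by rw [sub_eq_add_neg]) (hC.add hN (hC.neg hM))

theorem h90_shift (hC : Closed C) {N : Counts} (hN : C N) (j : ℕ) :
    C (fun p k => ((p : ℤ) ^ k) ^ j * N p k) := by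
  induction j with
  | zero => exact hC.congr (fun p k _ => by rw [pow_zero, one_mul]) hN
  | succ j ih => exact hC.congr (fun p k _ => by rw [pow_succ]; ring) (hC.shift ih)

theorem h90_unshift (hC : Closed C) {N : Counts} (j : ℕ)
    (hN : C (fun p k => ((p : ℤ) ^ k) ^ j * N p k)) : C N := by
  induction j with
  | zero => exact hC.congr (fun p k _ => by rw [pow_zero, one_mul]) hN
  | succ j ih => exact ih (hC.unshift (hC.congr (fun p k _ => by rw [pow_succ]; ring) hN))

theorem h90_mul (hC : Closed C) {N : Counts} (hN : C N) :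
    C (fun p k => ((p : ℤ) ^ k - 1) * N p k) :=
  hC.congr (fun p k _ => by ring) (h90_sub hC (hC.shift hN) hN)

theorem h90_sum (hC : Closed C) {N : ℕ → Counts} (hN : ∀ r, C (N r)) (b : ℕ) :
    C (fun p k => ∑ r ∈ range b, N r p k) := by
  induction b with
  | zero =>
    exact hC.congr (fun p k _ => by rw [Finset.sum_range_zero, sub_self])
      (h90_sub hC (hN 0) (hN 0))
  | succ b ih => exact hC.congr (fun p k _ => by rw [Finset.sum_range_succ]) (hC.add ih (hN b))

theorem h90_not_dvd_one (p : Nat.Primes) : ¬ ((p : ℕ) ∣ 1) := fun h =>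
  p.2.one_lt.ne' (Nat.dvd_one.1 h)

/-- The zeta function of a point. -/
theorem h90_one {m : ℕ} (hC : Closed C) (hP : ProjIn C m) : C (fun _ _ => 1) := by
  classical
  let F : Finset (MvPolynomial (Fin (m + 1)) ℤ) := univ.image (fun i : Fin m =>
    MvPolynomial.X i.succ)
  have hF : ∀ f ∈ F, ∃ d : ℕ, f.IsHomogeneous d := by
    intro f hf
    obtain ⟨i, -, rfl⟩ := Finset.mem_image.1 hf
    exact ⟨1, MvPolynomial.isHomogeneous_X _ _⟩
  apply hC.div
  refine hC.congr (fun p k hk => ?_) (h90_mul hC (hP F hF 1 one_pos))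
  rw [proj_formula hF 1 p hk, if_neg (h90_not_dvd_one p), mul_one]
  have := Fintype.ofFinite (FF p k)
  have h1 : ∀ v : Fin (m + 1) → FF p k, (∀ f ∈ F, MvPolynomial.aeval v f = 0) ↔
      ∀ i : Fin m, v i.succ = 0 := by
    intro v
    constructor
    · intro h i
      have := h (MvPolynomial.X i.succ) (Finset.mem_image.2 ⟨i, Finset.mem_univ _, rfl⟩)
      rwa [MvPolynomial.aeval_X] at this
    · intro h f hf
      obtain ⟨i, -, rfl⟩ := Finset.mem_image.1 hf
      rw [MvPolynomial.aeval_X]
      exact h i
  have h2 : cnt (fun v : Fin (m + 1) → FF p k => v ≠ 0 ∧ ∀ f ∈ F, MvPolynomial.aeval v f = 0) =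
      cnt (fun v : Fin (m + 1) → FF p k => ∀ i : Fin m, v i.succ = 0) -
        cnt (fun v : Fin (m + 1) → FF p k => v = 0) := by
    rw [cnt_sum, cnt_sum, cnt_sum, ← Finset.sum_sub_distrib]
    apply Finset.sum_congr rfl
    intro v _
    by_cases h0 : v = 0
    · subst h0
      simp
    · by_cases h3 : ∀ i : Fin m, v i.succ = 0
      · rw [if_pos ⟨h0, (h1 v).2 h3⟩, if_pos h3, if_neg h0, sub_zero]
      · rw [if_neg (fun h => h3 ((h1 v).1 h.2)), if_neg h3, if_neg h0, sub_zero]
  have h3 : cnt (fun v : Fin (m + 1) → FF p k => ∀ i : Fin m, v i.succ = 0) =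
      (Nat.card (FF p k) : ℤ) := by
    unfold cnt
    congr 1
    apply Nat.card_congr
    refine
      { toFun := fun v => v.1 0
        invFun := fun t => ⟨Fin.cons t 0, fun i => by simp⟩
        left_inv := ?_
        right_inv := fun t => by simp }
    rintro ⟨v, hv⟩
    apply Subtype.ext
    funext i
    refine Fin.cases ?_ (fun i => ?_) i
    · simp
    · simp [hv i]
  rw [h2, h3, cnt_eq, card_FF p hk]

/-- The matrix of linear forms. -/
noncomputable def linMat {n a b : ℕ} (T : Fin n → Fin a → Fin b → ℤ) :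
    Matrix (Fin a) (Fin b) (MvPolynomial (Fin n) ℤ) :=
  fun j l => ∑ i, MvPolynomial.C (T i j l) * MvPolynomial.X i

theorem linMat_homogeneous {n a b : ℕ} (T : Fin n → Fin a → Fin b → ℤ) (r : ℕ)
    (f : Fin r → Fin a) (g : Fin r → Fin b) :
    ((linMat T).submatrix f g).det.IsHomogeneous r := by
  rw [Matrix.det_apply]
  apply MvPolynomial.IsHomogeneous.sum
  intro σ _
  have h1 : (∏ i, ((linMat T).submatrix f g) (σ i) i).IsHomogeneous r := by
    have h2 := MvPolynomial.IsHomogeneous.prod (Finset.univ : Finset (Fin r))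
      (fun i => ((linMat T).submatrix f g) (σ i) i) (fun _ => 1) (fun i _ => by
        rw [Matrix.submatrix_apply]
        unfold linMat
        apply MvPolynomial.IsHomogeneous.sum
        intro i' _
        have h3 := (MvPolynomial.isHomogeneous_C (Fin n) (T i' (f (σ i)) (g i))).mul
          (MvPolynomial.isHomogeneous_X ℤ i')
        rwa [zero_add] at h3)
    simpa using h2
  rcases Int.units_eq_one_or (Equiv.Perm.sign σ) with h | h
  · rw [h, one_smul]
    exact h1
  · rw [h]
    simpa using h1.neg

theorem aeval_linMat {n a b : ℕ} (T : Fin n → Fin a → Fin b → ℤ) {K : Type} [Field K]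
    (v : Fin n → K) (r : ℕ) (f : Fin r → Fin a) (g : Fin r → Fin b) :
    MvPolynomial.aeval v ((linMat T).submatrix f g).det =
      ((Matrix.of fun j l => ∑ i, (T i j l : K) * v i : Matrix (Fin a) (Fin b) K).submatrix
        f g).det := by
  have h1 := AlgHom.map_det (MvPolynomial.aeval v : MvPolynomial (Fin n) ℤ →ₐ[ℤ] K)
    ((linMat T).submatrix f g)
  rw [h1]
  congr 1
  ext j l
  simp [linMat, Matrix.submatrix_apply]

end AB

theorem h90_ab (h1 : SCone) (h2 : SFlat) (h3 : SMinor) (h4 : SKer) : SAB := by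
  classical
  intro C hC m hP a b T _
  have hone := h90_one hC hP
  -- the rank strata
  let F : ℕ → Finset (MvPolynomial (Fin (m + 1)) ℤ) := fun r =>
    univ.image (fun fg : (Fin (r + 1) → Fin a) × (Fin (r + 1) → Fin b) =>
      ((linMat T).submatrix fg.1 fg.2).det)
  have hF : ∀ r, ∀ f ∈ F r, ∃ d : ℕ, f.IsHomogeneous d := by
    intro r f hf
    obtain ⟨fg, -, rfl⟩ := Finset.mem_image.1 hf
    exact ⟨r + 1, linMat_homogeneous T _ _ _⟩
  have hD : ∀ r, C (projCount (F r) 1) := fun r => hP (F r) (hF r) 1 one_pos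
  -- the matrices
  let M : ∀ (K : Type) [Field K], (Fin (m + 1) → K) → Matrix (Fin a) (Fin b) K :=
    fun K _ v => Matrix.of fun j l => ∑ i, (T i j l : K) * v i
  have hM : ∀ (K : Type) [Field K] (v : Fin (m + 1) → K) (r : ℕ),
      (∀ f ∈ F r, MvPolynomial.aeval v f = 0) ↔ (M K v).rank ≤ r := by
    intro K _ v r
    rw [h3 K a b r (M K v)]
    constructor
    · intro h f g
      have := h _ (Finset.mem_image.2 ⟨(f, g), Finset.mem_univ _, rfl⟩)
      rwa [aeval_linMat] at this
    · intro h f hf
      obtain ⟨fg, -, rfl⟩ := Finset.mem_image.1 hf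
      rw [aeval_linMat]
      exact h _ _
  -- the formula
  have hmain : ∀ (p : Nat.Primes) (k : ℕ), k ≠ 0 →
      cnt (fun z : (Fin (m + 1) → FF p k) × (Fin b → FF p k) =>
        ∀ j, ∑ i, ∑ l, (T i j l : FF p k) * z.1 i * z.2 l = 0) =
      ((p : ℤ) ^ k) ^ (m + 1) + ((p : ℤ) ^ k - 1) * ∑ r ∈ range b,
        ((p : ℤ) ^ k) ^ (b - r - 1) * (1 + ((p : ℤ) ^ k - 1) * projCount (F r) 1 p k) := by
    intro p k hk
    have := Fintype.ofFinite (FF p k)
    set q : ℤ := (p : ℤ) ^ k with hq
    have hqc : (Nat.card (FF p k) : ℤ) = q := card_FF p hk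
    have hq0 : q ≠ 0 := pow_ne_zero _ (by exact_mod_cast p.2.ne_zero)
    have e1 : ∀ v : Fin (m + 1) → FF p k, cnt (fun z : Fin b → FF p k =>
        ∀ j, ∑ i, ∑ l, (T i j l : FF p k) * v i * z l = 0) =
        1 + (q - 1) * ∑ r ∈ range b, q ^ (b - r - 1) *
          (if (M (FF p k) v).rank ≤ r then 1 else 0) := by
      intro v
      have e2 : cnt (fun z : Fin b → FF p k =>
          ∀ j, ∑ i, ∑ l, (T i j l : FF p k) * v i * z l = 0) =
          cnt (fun z : Fin b → FF p k => (M (FF p k) v).mulVec z = 0) := by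
        apply cnt_congr
        intro z
        rw [funext_iff]
        apply forall_congr'
        intro j
        have e3 : (M (FF p k) v).mulVec z j = ∑ i, ∑ l, (T i j l : FF p k) * v i * z l := by
          simp only [M, Matrix.mulVec, dotProduct, Matrix.of_apply, Finset.sum_mul]
          rw [Finset.sum_comm]
        rw [e3]
        rfl
      rw [e2]
      have e3 := h4 (FF p k) a b (M (FF p k) v)
      rw [hqc] at e3
      have e4 : (M (FF p k) v).rank ≤ b := by
        have := (M (FF p k) v).rank_le_width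
        exact this
      have e5 : q ^ (M (FF p k) v).rank * q ^ (b - (M (FF p k) v).rank) = q ^ b := by
        rw [← pow_add, Nat.add_sub_cancel' e4]
      have e6 : cnt (fun z : Fin b → FF p k => (M (FF p k) v).mulVec z = 0) =
          q ^ (b - (M (FF p k) v).rank) := by
        apply mul_left_cancel₀ (pow_ne_zero (M (FF p k) v).rank hq0)
        rw [e3, e5]
      rw [e6]
      -- the telescoping sum
      generalize (M (FF p k) v).rank = ρ at e4
      have e7 : ∀ n : ℕ, ρ ≤ n → n ≤ b → q ^ (b - ρ) = q ^ (b - n) + (q - 1) *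
          ∑ r ∈ range n, q ^ (b - r - 1) * (if ρ ≤ r then 1 else 0) := by
        intro n hn
        induction n, hn using Nat.le_induction with
        | base =>
          intro _
          rw [Finset.sum_eq_zero, mul_zero, add_zero]
          intro r hr
          rw [if_neg (by rw [Finset.mem_range] at hr; omega), mul_zero]
        | succ n hn ih =>
          intro hb
          rw [ih (by omega), Finset.sum_range_succ, if_pos hn, mul_one]
          have e8 : b - n = (b - (n + 1)) + 1 := by omega
          have e9 : b - n - 1 = b - (n + 1) := by omega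
          rw [e9, e8, pow_succ]
          ring
      have e8 := e7 b e4 le_rfl
      rw [e8, Nat.sub_self, pow_zero]
    rw [cnt_prod, Finset.sum_congr rfl (fun v _ => e1 v), Finset.sum_add_distrib,
      ← Finset.mul_sum, Finset.sum_comm]
    congr 1
    · rw [Finset.sum_const, nsmul_eq_mul, mul_one, Finset.card_univ, ← Nat.card_eq_fintype_card,
        card_fun, hqc, Fintype.card_fin]
    · congr 1
      apply Finset.sum_congr rfl
      intro r _
      rw [← Finset.mul_sum]
      congr 1
      rw [proj_formula (hF r) 1 p hk, if_neg (h90_not_dvd_one p), ← cnt_sum]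
      have e9 : cnt (fun v : Fin (m + 1) → FF p k => (M (FF p k) v).rank ≤ r) =
          cnt (fun v : Fin (m + 1) → FF p k => v = 0) +
          cnt (fun v : Fin (m + 1) → FF p k => v ≠ 0 ∧
            ∀ f ∈ F r, MvPolynomial.aeval v f = 0) := by
        rw [cnt_sum, cnt_sum, cnt_sum, ← Finset.sum_add_distrib]
        apply Finset.sum_congr rfl
        intro v _
        by_cases h0 : v = 0
        · have e10 : (M (FF p k) v).rank ≤ r := by
            have e11 : M (FF p k) v = 0 := by
              ext j l
              simp [M, h0]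
            rw [e11, Matrix.rank_zero]
            exact Nat.zero_le _
          rw [if_pos e10, if_pos h0, if_neg (fun h => h.1 h0), add_zero]
        · by_cases h5 : (M (FF p k) v).rank ≤ r
          · rw [if_pos h5, if_neg h0, if_pos ⟨h0, (hM _ v r).2 h5⟩, zero_add]
          · rw [if_neg h5, if_neg h0, if_neg (fun h => h5 ((hM _ v r).1 h.2)), zero_add]
      rw [e9, cnt_eq]
  -- membership of the affine counts
  have hx : C (fun p k => cnt (fun z : (Fin (m + 1) → FF p k) × (Fin b → FF p k) =>
      ∀ j, ∑ i, ∑ l, (T i j l : FF p k) * z.1 i * z.2 l = 0)) := by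
    have h5 := hC.add (h90_shift hC hone (m + 1)) (h90_mul hC (h90_sum hC (fun r =>
      h90_shift hC (hC.add hone (h90_mul hC (hD r))) (b - r - 1)) b))
    refine hC.congr (fun p k hk => ?_) h5
    rw [hmain p k hk, mul_one]
  have hy : C (fun p k => cnt (fun z : (Fin a → FF p k) × (Fin b → FF p k) =>
      ∀ i, ∑ j, ∑ l, (T i j l : FF p k) * z.1 j * z.2 l = 0)) := by
    apply h90_unshift hC (m + 1)
    refine hC.congr (fun p k hk => ?_) (h90_shift hC hx a)
    have h5 := h2 (FF p k) (m + 1) a b (fun i j l => (T i j l : FF p k))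
    rw [card_FF p hk] at h5
    exact h5.symm
  apply hC.div
  apply hC.div
  refine hC.congr (fun p k hk => ?_) (hC.add (h90_sub hC (h90_sub hC hy
    (h90_shift hC hone a)) (h90_shift hC hone b)) hone)
  have h5 := h1 (FF p k) (m + 1) a b (fun i j l => (T i j l : FF p k))
  rw [card_FF p hk] at h5
  rw [mul_one, mul_one]
  exact h5.symm

end Pool.Agent.H90.HW
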