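import Pool.Agent.H90.HW.Stmts2

/-!
Domains of finite type over `ℚ` of Krull dimension at most `d` are birational to subrings
generated by `d + 1` elements.
-/

namespace Pool.Agent.H90.HW

open MvPolynomial nonZeroDivisors

/-- Common denominators of finitely many polynomials. -/
theorem int_scale {σ ι : Type} [Finite ι] (f : ι → MvPolynomial σ ℚ) : ∃ K : ℤ, K ≠ 0 ∧
    ∀ i, ∃ f' : MvPolynomial σ ℤ, MvPolynomial.map (Int.castRingHom ℚ) f' = C (K : ℚ) * f i := by
  let _ : Algebra (MvPolynomial σ ℤ) (MvPolynomial σ ℚ) := algebraMvPolynomial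
  have _ : IsLocalization ((nonZeroDivisors ℤ).map (C (σ := σ))) (MvPolynomial σ ℚ) :=
    MvPolynomial.isLocalization (nonZeroDivisors ℤ) ℚ
  obtain ⟨⟨b, hb⟩, h⟩ := IsLocalization.exist_integer_multiples_of_finite
    ((nonZeroDivisors ℤ).map (C (σ := σ))) f
  obtain ⟨K, hK, rfl⟩ := hb
  refine ⟨K, nonZeroDivisors.ne_zero hK, fun i => ?_⟩
  obtain ⟨f', hf'⟩ := h i
  refine ⟨f', ?_⟩
  have h1 : algebraMap (MvPolynomial σ ℤ) (MvPolynomial σ ℚ) f' =
      MvPolynomial.map (Int.castRingHom ℚ) f' := rfl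
  rw [← h1, hf', Algebra.smul_def]
  congr 1
  show MvPolynomial.map (Int.castRingHom ℚ) (C K) = _
  rw [MvPolynomial.map_C]
  rfl

/-- The fraction field of a finite extension of a domain is generated by one element. -/
theorem field_gen {B A : Type} [CommRing B] [IsDomain B] [CharZero B] [CommRing A] [IsDomain A]
    [Algebra B A] [FaithfulSMul B A] [Module.Finite B A] :
    ∃ θ : A, ∀ y : A, ∃ (δ : B) (r : Polynomial B), δ ≠ 0 ∧
      algebraMap B A δ * y = Polynomial.aeval θ r := by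
  let K := FractionRing A
  let L := FractionRing B
  let _ : Algebra L K := FractionRing.liftAlgebra B K
  have _ : IsScalarTower B L K := FractionRing.isScalarTower_liftAlgebra B K
  have _ : CharZero L := charZero_of_injective_algebraMap (IsFractionRing.injective B L)
  have _ : Module.Finite L K := Module.Finite.of_isLocalization B A B⁰
  let pb := Field.powerBasisOfFiniteOfSeparable L K
  obtain ⟨⟨a, s⟩, hs⟩ := IsLocalization.surj (Algebra.algebraMapSubmonoid A B⁰) pb.gen
  obtain ⟨b, hb, hb'⟩ := s.2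
  refine ⟨a, fun y => ?_⟩
  obtain ⟨f, hf⟩ := pb.exists_eq_aeval' (algebraMap A K y)
  obtain ⟨c, hcm, hc⟩ := IsLocalization.integerNormalization_spec B⁰ f
  set f' := IsLocalization.integerNormalization B⁰ f with hf'
  have hb0 : b ≠ 0 := nonZeroDivisors.ne_zero hb
  have hc0 : c ≠ 0 := nonZeroDivisors.ne_zero hcm
  refine ⟨b ^ f'.natDegree * c, Polynomial.scaleRoots f' b,
    mul_ne_zero (pow_ne_zero _ hb0) hc0, ?_⟩
  apply IsFractionRing.injective A K
  have h1 : algebraMap A K a = algebraMap B K b * pb.gen := by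
    have h2 : algebraMap A K a = pb.gen * algebraMap A K (s : A) := hs.symm
    have h3 : (s : A) = algebraMap B A b := hb'.symm
    rw [h2, h3, ← IsScalarTower.algebraMap_apply B A K, mul_comm]
  have h4 : algebraMap A K (Polynomial.aeval a (Polynomial.scaleRoots f' b)) =
      Polynomial.eval₂ (algebraMap B K) (algebraMap B K b * pb.gen)
        (Polynomial.scaleRoots f' b) := by
    rw [← h1, ← Polynomial.aeval_algebraMap_apply, Polynomial.aeval_def]
  rw [h4, Polynomial.scaleRoots_eval₂_mul]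
  have h5 : Polynomial.eval₂ (algebraMap B K) pb.gen f' = algebraMap B K c * algebraMap A K y := by
    have h6 : Polynomial.eval₂ (algebraMap B K) pb.gen f' =
        Polynomial.aeval pb.gen (f'.map (algebraMap B L)) := by
      rw [Polynomial.aeval_def, Polynomial.eval₂_map, ← IsScalarTower.algebraMap_eq]
    rw [h6, hc, ← algebraMap_smul L c f, map_smul, ← hf, Algebra.smul_def,
      ← IsScalarTower.algebraMap_apply B L K]
  have h7 : ∀ z : B, algebraMap A K (algebraMap B A z) = algebraMap B K z := fun z =>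
    (IsScalarTower.algebraMap_apply B A K z).symm
  rw [h5, map_mul, h7, map_mul, map_pow]
  ring

/-- The same with a ring homomorphism in place of an algebra. -/
theorem field_gen' {B A : Type} [CommRing B] [IsDomain B] [CharZero B] [CommRing A] [IsDomain A]
    (g : B →+* A) (hg : Function.Injective g) (hf : g.Finite) :
    ∃ θ : A, ∀ y : A, ∃ (δ : B) (r : Polynomial B), δ ≠ 0 ∧
      g δ * y = Polynomial.eval₂ g θ r := by
  let _ : Algebra B A := g.toAlgebra
  have _ : Module.Finite B A := hf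
  have _ : FaithfulSMul B A := (faithfulSMul_iff_algebraMap_injective _ _).2 hg
  exact field_gen (B := B) (A := A)

theorem birational (hN : SNoether) : SBirational := by
  intro n d P hP hd
  have _ : IsDomain (MvPolynomial (Fin n) ℚ ⧸ P) := Ideal.Quotient.isDomain P
  obtain ⟨s, g, ginj, gfin⟩ := exists_finite_inj_algHom_of_fg ℚ (MvPolynomial (Fin n) ℚ ⧸ P)
  have gint : g.toRingHom.IsIntegral := RingHom.Finite.to_isIntegral gfin
  have hs : s ≤ d := hN _ s d g ginj gint hd
  -- generation of the field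
  obtain ⟨θ, hθ⟩ : ∃ θ : MvPolynomial (Fin n) ℚ ⧸ P, ∀ y, ∃ (δ : MvPolynomial (Fin s) ℚ)
      (r : Polynomial (MvPolynomial (Fin s) ℚ)), δ ≠ 0 ∧
        g δ * y = Polynomial.eval₂ (g : MvPolynomial (Fin s) ℚ →+* _) θ r :=
    field_gen' (g : MvPolynomial (Fin s) ℚ →+* MvPolynomial (Fin n) ℚ ⧸ P) ginj gfin
  choose δ r hδ0 hδ using fun i : Fin n => hθ (Ideal.Quotient.mk P (X i))
  -- common denominator
  let Δ : MvPolynomial (Fin s) ℚ := ∏ i, δ i
  have hΔ0 : Δ ≠ 0 := Finset.prod_ne_zero_iff.2 fun i _ => hδ0 i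
  let ρ : Fin n → Polynomial (MvPolynomial (Fin s) ℚ) := fun i =>
    Polynomial.C (∏ j ∈ Finset.univ.erase i, δ j) * r i
  have hρ : ∀ i, g Δ * Ideal.Quotient.mk P (X i) =
      Polynomial.eval₂ (g : MvPolynomial (Fin s) ℚ →+* _) θ (ρ i) := by
    intro i
    simp only [ρ, Δ]
    rw [Polynomial.eval₂_mul, Polynomial.eval₂_C, ← hδ i,
      ← Finset.mul_prod_erase Finset.univ δ (Finset.mem_univ i), map_mul]
    simp only [RingHom.coe_coe]
    ring
  -- the elements
  let ι : Fin s → Fin (d + 1) := fun j => ⟨j.1, by omega⟩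
  let φ : Fin (d + 1) → MvPolynomial (Fin n) ℚ ⧸ P := fun j =>
    if h : j.1 < s then g (X ⟨j.1, h⟩) else if j.1 = d then θ else 0
  have hφι : ∀ j, φ (ι j) = g (X j) := by
    intro j
    simp only [φ, ι]
    rw [dif_pos j.2]
  have hφlast : φ (Fin.last d) = θ := by
    simp only [φ, Fin.val_last]
    rw [dif_neg (by omega)]
    simp
  have hc1 : ∀ b : MvPolynomial (Fin s) ℚ, aeval φ (rename ι b) = g b := by
    intro b
    rw [aeval_rename]
    have : (aeval (φ ∘ ι) : MvPolynomial (Fin s) ℚ →ₐ[ℚ] _) = g := by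
      apply algHom_ext
      intro j
      rw [aeval_X]
      exact hφι j
    rw [this]
  let R₀ : Fin n → MvPolynomial (Fin (d + 1)) ℚ := fun i =>
    Polynomial.eval₂ ((rename ι : MvPolynomial (Fin s) ℚ →ₐ[ℚ] MvPolynomial (Fin (d + 1)) ℚ) :
      MvPolynomial (Fin s) ℚ →+* MvPolynomial (Fin (d + 1)) ℚ) (X (Fin.last d)) (ρ i)
  have hR₀ : ∀ i, aeval φ (R₀ i) =
      Polynomial.eval₂ (g : MvPolynomial (Fin s) ℚ →+* _) θ (ρ i) := by
    intro i
    simp only [R₀]
    have h1 := Polynomial.hom_eval₂ (ρ i) ((rename ι : MvPolynomial (Fin s) ℚ →ₐ[ℚ]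
      MvPolynomial (Fin (d + 1)) ℚ) : MvPolynomial (Fin s) ℚ →+* MvPolynomial (Fin (d + 1)) ℚ)
      ((aeval φ : MvPolynomial (Fin (d + 1)) ℚ →ₐ[ℚ] MvPolynomial (Fin n) ℚ ⧸ P) :
        MvPolynomial (Fin (d + 1)) ℚ →+* MvPolynomial (Fin n) ℚ ⧸ P) (X (Fin.last d))
    have h2 : ((aeval φ : MvPolynomial (Fin (d + 1)) ℚ →ₐ[ℚ] MvPolynomial (Fin n) ℚ ⧸ P) :
        MvPolynomial (Fin (d + 1)) ℚ →+* MvPolynomial (Fin n) ℚ ⧸ P).comp
        ((rename ι : MvPolynomial (Fin s) ℚ →ₐ[ℚ] MvPolynomial (Fin (d + 1)) ℚ) :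
          MvPolynomial (Fin s) ℚ →+* MvPolynomial (Fin (d + 1)) ℚ) =
        (g : MvPolynomial (Fin s) ℚ →+* MvPolynomial (Fin n) ℚ ⧸ P) := by
      apply RingHom.ext
      intro b
      exact hc1 b
    have h3 : ((aeval φ : MvPolynomial (Fin (d + 1)) ℚ →ₐ[ℚ] MvPolynomial (Fin n) ℚ ⧸ P) :
        MvPolynomial (Fin (d + 1)) ℚ →+* MvPolynomial (Fin n) ℚ ⧸ P) (X (Fin.last d)) = θ := by
      show aeval φ (X (Fin.last d)) = θ
      rw [aeval_X, hφlast]
    rw [h2, h3] at h1
    exact h1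
  -- lifting and scaling
  choose ψ hψ using fun j => Ideal.Quotient.mk_surjective (φ j)
  obtain ⟨K, hK0, hK⟩ := int_scale ψ
  choose φ' hφ' using hK
  have hKq : (K : ℚ) ≠ 0 := by exact_mod_cast hK0
  let sc : MvPolynomial (Fin (d + 1)) ℚ →ₐ[ℚ] MvPolynomial (Fin (d + 1)) ℚ :=
    aeval (fun j => C ((K : ℚ)⁻¹) * X j)
  obtain ⟨K₂, hK₂0, hK₂⟩ := int_scale (ι := Option (Fin n))
    (fun o => Option.elim o (sc (rename ι Δ)) (fun i => sc (R₀ i)))
  obtain ⟨c, hc⟩ := hK₂ none
  choose R hR using fun i => hK₂ (some i)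
  simp only [Option.elim] at hc hR
  -- evaluation
  have hev : ∀ f : MvPolynomial (Fin (d + 1)) ℤ,
      Ideal.Quotient.mk P (MvPolynomial.map (Int.castRingHom ℚ) (aeval φ' f)) =
        aeval (fun j => algebraMap ℚ (MvPolynomial (Fin n) ℚ ⧸ P) K * φ j)
          (MvPolynomial.map (Int.castRingHom ℚ) f) := by
    intro f
    induction f using MvPolynomial.induction_on with
    | C z => simp
    | add f g hf hg => simp only [map_add, hf, hg]
    | mul_X f j hf =>
      simp only [map_mul, hf, aeval_X, MvPolynomial.map_X, hφ' j, hψ]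
      congr 1
  have hsc : ∀ f : MvPolynomial (Fin (d + 1)) ℚ,
      aeval (fun j => algebraMap ℚ (MvPolynomial (Fin n) ℚ ⧸ P) K * φ j) (sc f) = aeval φ f := by
    intro f
    have : ((aeval (fun j => algebraMap ℚ (MvPolynomial (Fin n) ℚ ⧸ P) K * φ j) :
        MvPolynomial (Fin (d + 1)) ℚ →ₐ[ℚ] MvPolynomial (Fin n) ℚ ⧸ P).comp sc) = aeval φ := by
      apply algHom_ext
      intro j
      simp only [sc, AlgHom.comp_apply, aeval_X, map_mul, aeval_C]
      rw [← mul_assoc, ← map_mul, inv_mul_cancel₀ hKq, map_one, one_mul]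
    exact DFunLike.congr_fun this f
  have hCK : ∀ f : MvPolynomial (Fin (d + 1)) ℚ,
      aeval (fun j => algebraMap ℚ (MvPolynomial (Fin n) ℚ ⧸ P) K * φ j) (C (K₂ : ℚ) * sc f) =
        algebraMap ℚ (MvPolynomial (Fin n) ℚ ⧸ P) K₂ * aeval φ f := by
    intro f
    rw [map_mul, aeval_C, hsc]
  refine ⟨φ', c, R, ?_, fun i => ?_⟩
  · rw [← Ideal.Quotient.eq_zero_iff_mem, hev, hc, hCK, hc1]
    refine mul_ne_zero ?_ ?_
    · intro h0
      have := (algebraMap ℚ (MvPolynomial (Fin n) ℚ ⧸ P)).injective (h0.trans (map_zero _).symm)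
      exact hK₂0 (by exact_mod_cast this)
    · intro h0
      exact hΔ0 (ginj (h0.trans (map_zero g).symm))
  · rw [← Ideal.Quotient.eq_zero_iff_mem, map_sub, map_sub, map_mul, map_mul, hev, hev, hc, hR i,
      hCK, hCK, hc1, hR₀, ← hρ i, MvPolynomial.map_X]
    ring

end Pool.Agent.H90.HW
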