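import Pool.Agent.H90.HW.Had

/-!
Closure properties of the class of families of counts all of whose parts lie in a given family.
-/

namespace Pool.Agent.H90.HW

open Complex Pool.Agent.H73.Zeta Polynomial Filter Topology

/-- The traces. -/
def Tr (N : Counts) (μ : Nat.Primes → ℂ →₀ ℤ) : Prop :=
  ∀ (p : Nat.Primes) (k : ℕ), k ≠ 0 → (N p k : ℂ) = (μ p).sum fun α c => (c : ℂ) * α ^ k

theorem partsIn_iff {G : Family} {N : Counts} : PartsIn G N ↔
    ∃ (μ : Nat.Primes → ℂ →₀ ℤ) (B : ℕ), Tr N μ ∧ Sized μ B ∧ ∀ w, G.mem w (Lfun μ w) := by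
  constructor
  · rintro ⟨μ, B, h1, h2, h3, h4⟩
    exact ⟨μ, B, h1, ⟨h2, h3⟩, h4⟩
  · rintro ⟨μ, B, h1, ⟨h2, h3⟩, h4⟩
    exact ⟨μ, B, h1, h2, h3, h4⟩

theorem abs_sum_add_le (μ ν : ℂ →₀ ℤ) :
    ((μ + ν).sum fun _ c => |c|) ≤ (μ.sum fun _ c => |c|) + ν.sum fun _ c => |c| := by
  classical
  rw [Finsupp.sum_of_support_subset (s := μ.support ∪ ν.support) _ Finsupp.support_add _ (by simp),
    Finsupp.sum_of_support_subset μ (s := μ.support ∪ ν.support) Finset.subset_union_left _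
      (by simp),
    Finsupp.sum_of_support_subset ν (s := μ.support ∪ ν.support) Finset.subset_union_right _
      (by simp), ← Finset.sum_add_distrib]
  apply Finset.sum_le_sum
  intro α _
  exact abs_add_le _ _

theorem abs_sum_neg (μ : ℂ →₀ ℤ) : ((-μ).sum fun _ c => |c|) = μ.sum fun _ c => |c| := by
  rw [Finsupp.sum_neg_index (by simp)]
  simp

theorem abs_sum_mapDomain (μ : ℂ →₀ ℤ) {a : ℂ} (ha : a ≠ 0) :
    ((Finsupp.mapDomain (fun α => a * α) μ).sum fun _ c => |c|) = μ.sum fun _ c => |c| :=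
  Finsupp.sum_mapDomain_index_inj (h := fun _ c => |c|) (mul_right_injective₀ ha)

section sized

variable {μ ν : Nat.Primes → ℂ →₀ ℤ} {B B' : ℕ}

theorem Sized.mono (h : Sized μ B) (hB : B ≤ B') : Sized μ B' := by
  have hB' : (B : ℤ) ≤ B' := by exact_mod_cast hB
  refine ⟨fun p α hα => ?_, fun p => (h.2 p).trans hB'⟩
  obtain ⟨w, h1, h2⟩ := h.1 p α hα
  exact ⟨w, h1.trans hB', h2⟩

theorem Sized.add (h : Sized μ B) (h' : Sized ν B') : Sized (fun p => μ p + ν p) (B + B') := by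
  refine ⟨fun p α hα => ?_, fun p => ?_⟩
  · by_cases h0 : μ p α = 0
    · have h1 : ν p α ≠ 0 := by
        intro h1
        apply hα
        rw [Finsupp.add_apply, h0, h1, add_zero]
      obtain ⟨w, h2, h3⟩ := h'.1 p α h1
      refine ⟨w, ?_, h3⟩
      push_cast
      have : (0 : ℤ) ≤ B := Int.natCast_nonneg _
      linarith
    · obtain ⟨w, h2, h3⟩ := h.1 p α h0
      refine ⟨w, ?_, h3⟩
      push_cast
      have : (0 : ℤ) ≤ B' := Int.natCast_nonneg _
      linarith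
  · push_cast
    exact (abs_sum_add_le _ _).trans (add_le_add (h.2 p) (h'.2 p))

theorem Sized.neg (h : Sized μ B) : Sized (fun p => - μ p) B := by
  refine ⟨fun p α hα => h.1 p α ?_, fun p => ?_⟩
  · intro h0
    apply hα
    rw [Finsupp.neg_apply, h0, neg_zero]
  · rw [abs_sum_neg]
    exact h.2 p

theorem prime_ne_zero (p : Nat.Primes) : ((p : ℕ) : ℂ) ≠ 0 := by
  exact_mod_cast p.2.ne_zero

theorem norm_mul_prime (p : Nat.Primes) (w : ℤ) :
    ((p : ℕ) : ℝ) * ((p : ℕ) : ℝ) ^ ((w : ℝ) / 2) = ((p : ℕ) : ℝ) ^ (((w + 2 : ℤ) : ℝ) / 2) := by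
  have hp : (0 : ℝ) < ((p : ℕ) : ℝ) := by exact_mod_cast p.2.pos
  have e : (((w + 2 : ℤ) : ℝ) / 2) = 1 + (w : ℝ) / 2 := by
    push_cast
    ring
  rw [e, Real.rpow_add hp, Real.rpow_one]

theorem Sized.shift (h : Sized μ B) :
    Sized (fun p => Finsupp.mapDomain (fun α => ((p : ℕ) : ℂ) * α) (μ p)) (B + 2) := by
  refine ⟨fun p α hα => ?_, fun p => ?_⟩
  · rw [mapDomain_mul_apply _ (prime_ne_zero p)] at hα
    obtain ⟨w, h1, h2⟩ := h.1 p _ hα
    refine ⟨w + 2, ?_, ?_⟩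
    · push_cast
      exact (abs_add_le _ _).trans (add_le_add h1 (by norm_num))
    · rw [← norm_mul_prime, ← h2, norm_div, Complex.norm_natCast]
      have hp : ((p : ℕ) : ℝ) ≠ 0 := by exact_mod_cast p.2.ne_zero
      field_simp
  · rw [abs_sum_mapDomain _ (prime_ne_zero p)]
    push_cast
    have := h.2 p
    linarith

theorem Sized.unshift (h : Sized μ B) :
    Sized (fun p => Finsupp.mapDomain (fun α => ((p : ℕ) : ℂ)⁻¹ * α) (μ p)) (B + 2) := by
  refine ⟨fun p α hα => ?_, fun p => ?_⟩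
  · rw [mapDomain_mul_apply _ (inv_ne_zero (prime_ne_zero p))] at hα
    obtain ⟨w, h1, h2⟩ := h.1 p _ hα
    refine ⟨w - 2, ?_, ?_⟩
    · push_cast
      exact (abs_sub _ _).trans (add_le_add h1 (by norm_num))
    · have h3 := norm_mul_prime p (w - 2)
      rw [sub_add_cancel, ← h2, div_inv_eq_mul, norm_mul, Complex.norm_natCast, mul_comm] at h3
      have hp : ((p : ℕ) : ℝ) ≠ 0 := by exact_mod_cast p.2.ne_zero
      exact (mul_right_cancel₀ hp h3).symm
  · rw [abs_sum_mapDomain _ (inv_ne_zero (prime_ne_zero p))]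
    push_cast
    have := h.2 p
    linarith

end sized

theorem Lfun_zero (w : ℤ) (s : ℂ) : Lfun (fun _ => 0) w s = 1 := by
  unfold Lfun
  simp [Finsupp.prod_zero_index]

section mem

variable (hA : SAdd) (hSh : SShift) {G : Family} {μ ν : Nat.Primes → ℂ →₀ ℤ} {B B' : ℕ} {w : ℤ}

include hA in
theorem mem_add (h : Sized μ B) (h' : Sized ν B') (hμ : G.mem w (Lfun μ w))
    (hν : G.mem w (Lfun ν w)) : G.mem w (Lfun (fun p => μ p + ν p) w) := by
  obtain ⟨c, hc⟩ := hA μ ν (B + B') (h.mono (Nat.le_add_right _ _)) (h'.mono (Nat.le_add_left _ _)) w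
  exact G.congr w _ _ c (fun s hs => (hc s hs).symm) (G.mul w _ _ hμ hν)

include hA in
theorem mem_neg (h : Sized μ B) (hμ : G.mem w (Lfun μ w)) :
    G.mem w (Lfun (fun p => - μ p) w) := by
  obtain ⟨c, hc⟩ := hA μ (fun p => - μ p) B h h.neg w
  refine G.congr w _ _ c (fun s hs => ?_) (G.inv w _ hμ)
  have h1 := hc s hs
  have h2 : (fun p => μ p + - μ p) = fun _ : Nat.Primes => (0 : ℂ →₀ ℤ) := by
    funext p
    exact add_neg_cancel _
  rw [h2, Lfun_zero] at h1
  rw [Pi.inv_apply]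
  exact inv_eq_of_mul_eq_one_right h1.symm

include hSh in
theorem mem_shift (hμ : G.mem w (Lfun μ w)) :
    G.mem (w + 2) (Lfun (fun p => Finsupp.mapDomain (fun α => ((p : ℕ) : ℂ) * α) (μ p)) (w + 2)) := by
  have h1 := (G.shift w _).2 hμ
  have h2 : Lfun (fun p => Finsupp.mapDomain (fun α => ((p : ℕ) : ℂ) * α) (μ p)) (w + 2) =
      fun s => Lfun μ w (s - 1) := by
    funext s
    apply hSh
    intro p α
    exact Finsupp.mapDomain_apply (mul_right_injective₀ (prime_ne_zero p)) _ _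
  rw [h2]
  exact h1

include hSh in
theorem mem_unshift (hμ : G.mem (w + 2) (Lfun μ (w + 2))) :
    G.mem w (Lfun (fun p => Finsupp.mapDomain (fun α => ((p : ℕ) : ℂ)⁻¹ * α) (μ p)) w) := by
  apply (G.shift w _).1
  have h2 : Lfun μ (w + 2) =
      fun s => Lfun (fun p => Finsupp.mapDomain (fun α => ((p : ℕ) : ℂ)⁻¹ * α) (μ p)) w (s - 1) := by
    funext s
    apply hSh
    intro p α
    rw [mapDomain_mul_apply _ (inv_ne_zero (prime_ne_zero p)), div_inv_eq_mul, mul_comm]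
  rw [← h2]
  exact hμ

end mem

/-- The group of weight `w` contains the trivial function. -/
theorem mem_small {G : Family} {μ : Nat.Primes → ℂ →₀ ℤ} {B : ℕ} (h : Sized μ B) {w : ℤ}
    (hw : w < -(B : ℤ)) : G.mem w (Lfun μ w) := by
  have h1 : Lfun μ w = 1 := by
    funext s
    unfold Lfun
    have h2 : ∀ p : Nat.Primes, ((μ p).prod fun α c =>
        if ‖α‖ = ((p : ℕ) : ℝ) ^ ((w : ℝ) / 2) then
          (1 - α * ((p : ℕ) : ℂ) ^ (-s)) ^ (-c) else 1) = 1 := by
      intro p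
      apply Finset.prod_eq_one
      intro α hα
      simp only
      rw [if_neg]
      intro h3
      obtain ⟨w', h4, h5⟩ := h.1 p α (Finsupp.mem_support_iff.1 hα)
      have hp : (1 : ℝ) < ((p : ℕ) : ℝ) := by exact_mod_cast p.2.one_lt
      have h6 : w < w' := lt_of_lt_of_le hw (neg_le_of_abs_le h4)
      have h7 : ((p : ℕ) : ℝ) ^ ((w : ℝ) / 2) < ((p : ℕ) : ℝ) ^ ((w' : ℝ) / 2) := by
        apply Real.rpow_lt_rpow_of_exponent_lt hp
        have : (w : ℝ) < w' := by exact_mod_cast h6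
        linarith
      rw [← h3, ← h5] at h7
      exact lt_irrefl _ h7
    simp only [h2, tprod_one, Pi.one_apply]
  rw [h1]
  exact G.one w

theorem closedParts (hH : SHad) (hZ : SSize) (hA : SAdd) (hSh : SShift) : SClosed := by
  intro G
  refine ⟨?_, ?_, ?_, ?_, ?_, ?_⟩
  · intro N M h hN
    rw [partsIn_iff] at *
    obtain ⟨μ, B, h1, h2, h3⟩ := hN
    exact ⟨μ, B, fun p k hk => by rw [← h p k hk]; exact h1 p k hk, h2, h3⟩
  · intro N M hN hM
    rw [partsIn_iff] at *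
    obtain ⟨μ, B, h1, h2, h3⟩ := hN
    obtain ⟨ν, B', h1', h2', h3'⟩ := hM
    refine ⟨fun p => μ p + ν p, B + B', fun p k hk => ?_, h2.add h2',
      fun w => mem_add hA h2 h2' (h3 w) (h3' w)⟩
    rw [sum_add_exp, ← h1 p k hk, ← h1' p k hk]
    push_cast
    ring
  · intro N hN
    rw [partsIn_iff] at *
    obtain ⟨μ, B, h1, h2, h3⟩ := hN
    refine ⟨fun p => - μ p, B, fun p k hk => ?_, h2.neg, fun w => mem_neg hA h2 (h3 w)⟩
    rw [sum_neg_exp, ← h1 p k hk]
    push_cast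
    ring
  · intro N hN
    rw [partsIn_iff] at *
    obtain ⟨μ, B, h1, h2, h3⟩ := hN
    refine ⟨fun p => Finsupp.mapDomain (fun α => ((p : ℕ) : ℂ) * α) (μ p), B + 2,
      fun p k hk => ?_, h2.shift, fun w => ?_⟩
    · rw [sum_mapDomain_mul, ← h1 p k hk]
      push_cast
      ring
    · have := mem_shift hSh (h3 (w - 2))
      rw [sub_add_cancel] at this
      exact this
  · intro N hN
    rw [partsIn_iff] at *
    obtain ⟨μ, B, h1, h2, h3⟩ := hN
    refine ⟨fun p => Finsupp.mapDomain (fun α => ((p : ℕ) : ℂ)⁻¹ * α) (μ p), B + 2,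
      fun p k hk => ?_, h2.unshift, fun w => mem_unshift hSh (h3 (w + 2))⟩
    rw [sum_mapDomain_mul, ← h1 p k hk]
    push_cast
    rw [← mul_assoc, ← mul_pow, inv_mul_cancel₀ (prime_ne_zero p), one_pow, one_mul]
  · intro N hN
    rw [partsIn_iff] at *
    obtain ⟨μ, B, h1, h2, h3⟩ := hN
    have hμ0 : ∀ p : Nat.Primes, μ p 0 = 0 := by
      intro p
      by_contra hcon
      obtain ⟨w, -, h4⟩ := h2.1 p 0 hcon
      rw [norm_zero] at h4
      have hp : (0 : ℝ) < ((p : ℕ) : ℝ) := by exact_mod_cast p.2.pos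
      exact (Real.rpow_pos_of_pos hp _).ne h4
    have h4 : ∀ p : Nat.Primes, ∃ ν : ℂ →₀ ℤ, ν 0 = 0 ∧
        (∀ k, k ≠ 0 → (N p k : ℂ) = ν.sum fun α c => (c : ℂ) * α ^ k) ∧
        ∀ α, ν (α / (p : ℕ)) - ν α = μ p α := by
      intro p
      apply hH (p : ℕ) p.2.two_le (N p) (μ p) (hμ0 p)
      intro k hk
      rw [← h1 p k hk]
      push_cast
      ring
    choose ν hν0 hνs hνr using h4
    have hsz : Sized ν ((B + 1) * B) := by
      have h5 : ∀ p : Nat.Primes, (∀ α, ν p α ≠ 0 → ∃ w : ℤ, |w| ≤ B ∧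
          ‖α‖ = ((p : ℕ) : ℝ) ^ ((w : ℝ) / 2)) ∧
          ((ν p).sum fun _ c => |c|) ≤ (B + 1) * B := fun p =>
        hZ (p : ℕ) p.2.two_le B (μ p) (ν p) (h2.1 p) (h2.2 p) (hνr p) (hν0 p)
      refine ⟨fun p α hα => ?_, fun p => ?_⟩
      · obtain ⟨w, h6, h7⟩ := (h5 p).1 α hα
        refine ⟨w, h6.trans ?_, h7⟩
        have : B ≤ (B + 1) * B := Nat.le_mul_of_pos_left B (Nat.succ_pos B)
        exact_mod_cast this
      · have := (h5 p).2
        push_cast
        exact this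
    have hrel : ν = fun p : Nat.Primes => Finsupp.mapDomain (fun α => ((p : ℕ) : ℂ) * α) (ν p) + - μ p := by
      funext p
      ext α
      rw [Finsupp.add_apply, mapDomain_mul_apply _ (prime_ne_zero p), Finsupp.neg_apply,
        ← hνr p α]
      ring
    set B' : ℕ := (B + 1) * B with hB'
    have hmem : ∀ n : ℕ, ∀ w : ℤ, w < -(B' : ℤ) + n → G.mem w (Lfun ν w) := by
      intro n
      induction n with
      | zero =>
        intro w hw
        exact mem_small hsz (by simpa using hw)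
      | succ n ih =>
        intro w hw
        have h5 := ih (w - 2) (by push_cast at hw; linarith)
        have h6 := mem_shift hSh h5
        rw [sub_add_cancel] at h6
        have h7 := mem_add hA hsz.shift h2.neg h6 (mem_neg hA h2 (h3 w))
        rw [← hrel] at h7
        exact h7
    refine ⟨ν, B', fun p k hk => hνs p k hk, hsz, fun w => ?_⟩
    obtain ⟨n, hn⟩ : ∃ n : ℕ, w + B' + 1 ≤ n := ⟨(w + B' + 1).toNat, Int.self_le_toNat _⟩
    exact hmem n w (by linarith)

end Pool.Agent.H90.HW
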