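import Pool.Agent.H90.HW.Main

/-!
The smooth affine cubic hypersurfaces `T (x, y, z) = 1`.
-/

namespace Pool.Agent.H90.HW

open Pool.Agent.H73.Zeta Finset
open scoped LinearAlgebra.Projectivization

/-- The numbers of points of the affine cubic hypersurface `T (x, y, z) = 1`, where `T` is the
trilinear form with coefficients `T i j l`. -/
noncomputable def cubicCount {n a b : ℕ} (T : Fin n → Fin a → Fin b → ℤ) : Counts :=
  fun p k => (Nat.card {z : (Fin n → FF p k) × (Fin a → FF p k) × (Fin b → FF p k) //
    ∑ i, ∑ j, ∑ l, (T i j l : FF p k) * z.1 i * z.2.1 j * z.2.2 l = 1} : ℤ)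

/-- All smooth affine cubics `x_0 B_0 (y, z) + ... + x_m B_m (y, z) = 1`. -/
def CubicIn (C : Counts → Prop) (m : ℕ) : Prop :=
  ∀ (a b : ℕ) (T : Fin (m + 1) → Fin a → Fin b → ℤ),
    (∀ i j l, T i j l = -1 ∨ T i j l = 0 ∨ T i j l = 1) → C (cubicCount T)

/-- The values of a trilinear form are equidistributed outside zero. -/
theorem cubic_formula {n a b : ℕ} (T : Fin n → Fin a → Fin b → ℤ) (p : Nat.Primes) {k : ℕ}
    (hk : k ≠ 0) :
    ((p : ℤ) ^ k - 1) * cubicCount T p k + triCount T p k = ((p : ℤ) ^ k) ^ (n + (a + b)) := by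
  classical
  have := Fintype.ofFinite (FF p k)
  let Z := (Fin n → FF p k) × (Fin a → FF p k) × (Fin b → FF p k)
  let τ : Z → FF p k := fun z =>
    ∑ i, ∑ j, ∑ l, (T i j l : FF p k) * z.1 i * z.2.1 j * z.2.2 l
  have h1 : ∀ c : (FF p k)ˣ, cnt (fun z : Z => τ z = c) = cubicCount T p k := by
    intro c
    let e : Z ≃ Z := (MulAction.toPerm c : (Fin n → FF p k) ≃ (Fin n → FF p k)).prodCongr
      (Equiv.refl _)
    rw [← cnt_equiv e]
    apply cnt_congr
    intro z
    have h2 : τ (e z) = c * τ z := by
      simp only [τ, Finset.mul_sum]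
      apply Finset.sum_congr rfl
      intro i _
      apply Finset.sum_congr rfl
      intro j _
      apply Finset.sum_congr rfl
      intro l _
      have : (e z).1 i = (c : FF p k) * z.1 i := rfl
      have h3 : (e z).2 = z.2 := rfl
      rw [this, h3]
      ring
    rw [h2]
    constructor
    · intro h
      exact mul_left_cancel₀ c.ne_zero (by rw [h, mul_one])
    · intro h
      show (c : FF p k) * τ z = c
      have h3 : τ z = 1 := h
      rw [h3, mul_one]
  have h2 : (Nat.card Z : ℤ) = ∑ c : FF p k, cnt (fun z : Z => τ z = c) := by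
    have h3 := cnt_prod (α := FF p k) (β := Z) (fun x => τ x.2 = x.1)
    have h4 := cnt_prod' (α := FF p k) (β := Z) (fun x => τ x.2 = x.1)
    rw [← h3, h4]
    have h5 : ∀ z : Z, cnt (fun c : FF p k => τ z = c) = 1 := by
      intro z
      rw [← cnt_eq (τ z)]
      exact cnt_congr (fun c => eq_comm)
    rw [Finset.sum_congr rfl (fun z _ => h5 z), Finset.sum_const, nsmul_eq_mul, mul_one,
      Finset.card_univ, Nat.card_eq_fintype_card]
  have h3 : ∑ c : FF p k, cnt (fun z : Z => τ z = c) =
      triCount T p k + ((p : ℤ) ^ k - 1) * cubicCount T p k := by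
    rw [← Finset.add_sum_erase _ _ (Finset.mem_univ (0 : FF p k))]
    congr 1
    rw [Finset.sum_congr rfl (g := fun _ => cubicCount T p k) (fun c hc =>
      h1 (Units.mk0 c (Finset.ne_of_mem_erase hc))), Finset.sum_const,
      Finset.card_erase_of_mem (Finset.mem_univ _), nsmul_eq_mul, Finset.card_univ,
      Nat.cast_sub Fintype.card_pos, ← Nat.card_eq_fintype_card, card_FF p hk]
    simp
  have h4 : (Nat.card Z : ℤ) = ((p : ℤ) ^ k) ^ (n + (a + b)) := by
    simp only [Z, Nat.card_prod]
    push_cast
    rw [card_fun, card_fun, card_fun, card_FF p hk]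
    simp only [Fintype.card_fin]
    ring
  rw [← h4, h2, h3]
  ring

/-- Relation of the cubic hypersurface and of the linear section. -/
theorem tri_formula {n a b : ℕ} (T : Fin n → Fin a → Fin b → ℤ) (p : Nat.Primes) {k : ℕ}
    (hk : k ≠ 0) :
    (p : ℤ) ^ k * triCount T p k = ((p : ℤ) ^ k) ^ (n + (a + b)) + ((p : ℤ) ^ k - 1) *
      (((p : ℤ) ^ k) ^ n * cnt (fun z : (Fin a → FF p k) × (Fin b → FF p k) =>
        ∀ i, ∑ j, ∑ l, (T i j l : FF p k) * z.1 j * z.2 l = 0)) := by
  have h5 := cnt_mult (K := FF p k) (ι := Fin n) (W := (Fin a → FF p k) × (Fin b → FF p k))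
    (fun i w => ∑ j, ∑ l, (T i j l : FF p k) * w.1 j * w.2 l)
  have h6 : cnt (fun z : (Fin n → FF p k) × ((Fin a → FF p k) × (Fin b → FF p k)) =>
      ∑ i, z.1 i * ∑ j, ∑ l, (T i j l : FF p k) * z.2.1 j * z.2.2 l = 0) = triCount T p k := by
    apply cnt_congr
    intro z
    have : ∑ i, z.1 i * ∑ j, ∑ l, (T i j l : FF p k) * z.2.1 j * z.2.2 l =
        ∑ i, ∑ j, ∑ l, (T i j l : FF p k) * z.1 i * z.2.1 j * z.2.2 l := by
      simp only [Finset.mul_sum]
      apply Finset.sum_congr rfl
      intro i _
      apply Finset.sum_congr rfl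
      intro j _
      apply Finset.sum_congr rfl
      intro l _
      ring
    rw [this]
  rw [h6, card_FF p hk, Fintype.card_fin, Nat.card_prod] at h5
  push_cast at h5
  rw [card_fun, card_fun, card_FF p hk, Fintype.card_fin, Fintype.card_fin] at h5
  rw [h5]
  ring

theorem cone_formula {n a b : ℕ} (T : Fin n → Fin a → Fin b → ℤ) (p : Nat.Primes) {k : ℕ}
    (hk : k ≠ 0) :
    ((p : ℤ) ^ k - 1) * (((p : ℤ) ^ k - 1) * segreCount T p k) =
      cnt (fun z : (Fin a → FF p k) × (Fin b → FF p k) =>
        ∀ i, ∑ j, ∑ l, (T i j l : FF p k) * z.1 j * z.2 l = 0) -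
      ((p : ℤ) ^ k) ^ a - ((p : ℤ) ^ k) ^ b + 1 := by
  have h5 := cone (FF p k) n a b (fun i j l => (T i j l : FF p k))
  rw [card_FF p hk] at h5
  exact h5

theorem cubicIn_iff {C : Counts → Prop} (hC : Closed C) (m : ℕ) : SegreIn C m ↔ CubicIn C m := by
  constructor
  · intro hS
    have hone := h90_one hC ((projIn_iff hC m).2 hS)
    intro a b T hT
    have hy : C (fun p k => cnt (fun z : (Fin a → FF p k) × (Fin b → FF p k) =>
        ∀ i, ∑ j, ∑ l, (T i j l : FF p k) * z.1 j * z.2 l = 0)) := by
      refine hC.congr (fun p k hk => ?_) (h90_sub hC (hC.add (h90_mul hC (h90_mul hC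
        (hS a b T hT))) (hC.add (h90_shift hC hone a) (h90_shift hC hone b))) hone)
      rw [cone_formula T p hk]
      ring
    have ht : C (triCount T) := by
      apply hC.unshift
      refine hC.congr (fun p k hk => ?_) (hC.add (h90_shift hC hone (m + 1 + (a + b)))
        (h90_mul hC (h90_shift hC hy (m + 1))))
      rw [tri_formula T p hk]
      ring
    apply hC.div
    refine hC.congr (fun p k hk => ?_) (h90_sub hC (h90_shift hC hone (m + 1 + (a + b))) ht)
    have := cubic_formula T p hk
    linear_combination -this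
  · intro hS
    -- the point
    have hone : C (fun _ _ => 1) := by
      let T₀ : Fin (m + 1) → Fin 1 → Fin 1 → ℤ := fun i _ _ => if i = 0 then 1 else 0
      have h1 := hS 1 1 T₀ (by
        intro i j l
        by_cases hi : i = 0 <;> simp [T₀, hi])
      apply hC.div
      apply hC.div
      apply h90_unshift hC m
      refine hC.congr (fun p k hk => ?_) h1
      have := Fintype.ofFinite (FF p k)
      -- direct count
      have h2 : ∀ z : (Fin (m + 1) → FF p k) × (Fin 1 → FF p k) × (Fin 1 → FF p k),
          ∑ i, ∑ j, ∑ l, (T₀ i j l : FF p k) * z.1 i * z.2.1 j * z.2.2 l =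
            z.1 0 * z.2.1 0 * z.2.2 0 := by
        intro z
        simp [T₀]
      let e : {z : (Fin (m + 1) → FF p k) × (Fin 1 → FF p k) × (Fin 1 → FF p k) //
          ∑ i, ∑ j, ∑ l, (T₀ i j l : FF p k) * z.1 i * z.2.1 j * z.2.2 l = 1} ≃
          (FF p k)ˣ × (FF p k)ˣ × (Fin m → FF p k) :=
        { toFun := fun z =>
            (Units.mk0 (z.1.2.1 0) (fun h0 => by
              have h3 := z.2
              rw [h2, h0, mul_zero, zero_mul] at h3
              exact zero_ne_one h3),
             Units.mk0 (z.1.2.2 0) (fun h0 => by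
              have h3 := z.2
              rw [h2, h0, mul_zero] at h3
              exact zero_ne_one h3), fun i => z.1.1 i.succ)
          invFun := fun w => ⟨(Fin.cons ((w.1 : FF p k)⁻¹ * (w.2.1 : FF p k)⁻¹) w.2.2,
            fun _ => w.1, fun _ => w.2.1), by
              rw [h2]
              simp only [Fin.cons_zero]
              field_simp⟩
          left_inv := by
            rintro ⟨⟨x, y, z⟩, hz⟩
            have h3 := hz
            rw [h2] at h3
            simp only at h3
            have hy0 : y 0 ≠ 0 := fun h0 => by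
              rw [h0, mul_zero, zero_mul] at h3
              exact zero_ne_one h3
            have hz0 : z 0 ≠ 0 := fun h0 => by
              rw [h0, mul_zero] at h3
              exact zero_ne_one h3
            apply Subtype.ext
            simp only [Prod.mk.injEq, Units.val_mk0]
            refine ⟨?_, ?_, ?_⟩
            · funext i
              refine Fin.cases ?_ (fun i => ?_) i
              · rw [Fin.cons_zero]
                field_simp
                rw [← h3]
                ring
              · rw [Fin.cons_succ]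
            · funext i
              rw [Subsingleton.elim i 0]
            · funext i
              rw [Subsingleton.elim i 0]
          right_inv := by
            rintro ⟨u, v, x⟩
            simp }
      have h3 := Nat.card_congr e
      have h4 : (Nat.card (FF p k)ˣ : ℤ) = (p : ℤ) ^ k - 1 := by
        have h5 := Nat.card_eq_card_units_add_one (α := FF p k)
        have h6 := card_FF p hk
        rw [h5] at h6
        push_cast at h6
        linarith
      have h5 : cubicCount T₀ p k = (Nat.card ((FF p k)ˣ × (FF p k)ˣ × (Fin m → FF p k)) : ℤ) := by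
        unfold cubicCount
        exact_mod_cast h3
      rw [h5, Nat.card_prod, Nat.card_prod]
      push_cast
      rw [h4, card_fun, card_FF p hk, Fintype.card_fin]
      ring
    intro a b T hT
    have ht : C (triCount T) := by
      refine hC.congr (fun p k hk => ?_) (h90_sub hC (h90_shift hC hone (m + 1 + (a + b)))
        (h90_mul hC (hS a b T hT)))
      have := cubic_formula T p hk
      linear_combination -this
    have hy : C (fun p k => cnt (fun z : (Fin a → FF p k) × (Fin b → FF p k) =>
        ∀ i, ∑ j, ∑ l, (T i j l : FF p k) * z.1 j * z.2 l = 0)) := by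
      apply h90_unshift hC (m + 1)
      apply hC.div
      refine hC.congr (fun p k hk => ?_) (h90_sub hC (hC.shift ht)
        (h90_shift hC hone (m + 1 + (a + b))))
      rw [tri_formula T p hk]
      ring
    apply hC.div
    apply hC.div
    refine hC.congr (fun p k hk => ?_) (hC.add (h90_sub hC (h90_sub hC hy
      (h90_shift hC hone a)) (h90_shift hC hone b)) hone)
    rw [cone_formula T p hk]
    ring

end Pool.Agent.H90.HW
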