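import Pool.Agent.H73.ZetaDefs

/-!
The parts of given weight of a family of point counts, their `L`-functions, and linear sections of
Segre varieties.
-/

namespace Pool.Agent.H90.HW

open Complex Pool.Agent.H73.Zeta
open scoped LinearAlgebra.Projectivization

open scoped Classical in
/-- The `L`-function of the part of weight `w`.  For every prime `p` let `μ p` be a finitely
supported function on `ℂ` with integral values, to be thought of as a virtual set of eigenvalues of
Frobenius with multiplicities.  The function is the Euler product, over all primes `p`, of the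
finite products of the factors `(1 - α p ^ (-s)) ^ (- μ p α)` over all `α` of absolute value
`p ^ (w / 2)`. -/
noncomputable def Lfun (μ : Nat.Primes → ℂ →₀ ℤ) (w : ℤ) (s : ℂ) : ℂ :=
  ∏' p : Nat.Primes, (μ p).prod fun α c =>
    if ‖α‖ = ((p : ℕ) : ℝ) ^ ((w : ℝ) / 2) then (1 - α * ((p : ℕ) : ℂ) ^ (-s)) ^ (-c) else 1

/-- A family of groups of functions, `G w` for every integer `w` (the weight), which are
multiplicative groups, depend only on the values of the functions in some right half plane, and
are compatible with the shift by one, which raises the weight by two. -/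
structure Family where
  /-- Membership of a function in the group of weight `w`. -/
  mem : ℤ → (ℂ → ℂ) → Prop
  one : ∀ w, mem w 1
  mul : ∀ w F F', mem w F → mem w F' → mem w (F * F')
  inv : ∀ w F, mem w F → mem w F⁻¹
  shift : ∀ w F, mem (w + 2) (fun s => F (s - 1)) ↔ mem w F
  congr : ∀ (w : ℤ) (F F' : ℂ → ℂ) (c : ℝ), (∀ s : ℂ, c < s.re → F s = F' s) →
    mem w F → mem w F'

/-- The family of counts `N` is a sum of parts which are pure of integral weights, of bounded
size, and for every `w` the `L`-function of the part of weight `w` belongs to the group `G w`. -/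
def PartsIn (G : Family) (N : Counts) : Prop :=
  ∃ (μ : Nat.Primes → ℂ →₀ ℤ) (B : ℕ),
    (∀ (p : Nat.Primes) (k : ℕ), k ≠ 0 → (N p k : ℂ) = (μ p).sum fun α c => (c : ℂ) * α ^ k) ∧
    (∀ (p : Nat.Primes) (α : ℂ), μ p α ≠ 0 →
      ∃ w : ℤ, |w| ≤ B ∧ ‖α‖ = ((p : ℕ) : ℝ) ^ ((w : ℝ) / 2)) ∧
    (∀ p : Nat.Primes, ((μ p).sum fun _ c => |c|) ≤ B) ∧
    ∀ w : ℤ, G.mem w (Lfun μ w)

/-- The numbers of points of the linear section of the Segre variety `ℙ^(a-1) × ℙ^(b-1)` cut out by
the bilinear forms with coefficients `T i j l`, one form for every `i`. -/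
noncomputable def segreCount {n a b : ℕ} (T : Fin n → Fin a → Fin b → ℤ) : Counts :=
  fun p k => (Nat.card {z : ℙ (FF p k) (Fin a → FF p k) × ℙ (FF p k) (Fin b → FF p k) //
    ∀ i, ∑ j, ∑ l, (T i j l : FF p k) * z.1.rep j * z.2.rep l = 0} : ℤ)

/-- A class of families of counts closed under the operations used in the reduction. -/
structure Closed (C : Counts → Prop) : Prop where
  congr : ∀ {N M : Counts}, (∀ p k, k ≠ 0 → N p k = M p k) → C N → C M
  add : ∀ {N M : Counts}, C N → C M → C (fun p k => N p k + M p k)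
  neg : ∀ {N : Counts}, C N → C (fun p k => - N p k)
  shift : ∀ {N : Counts}, C N → C (fun p k => (p : ℤ) ^ k * N p k)
  unshift : ∀ {N : Counts}, C (fun p k => (p : ℤ) ^ k * N p k) → C N
  div : ∀ {N : Counts}, C (fun p k => ((p : ℤ) ^ k - 1) * N p k) → C N

/-- All closed subschemes of `ℙ^m` over `ℤ[1/N]`. -/
def ProjIn (C : Counts → Prop) (m : ℕ) : Prop :=
  ∀ F : Finset (MvPolynomial (Fin (m + 1)) ℤ), (∀ f ∈ F, ∃ d : ℕ, f.IsHomogeneous d) →
    ∀ N : ℕ, 0 < N → C (projCount F N)

/-- All linear sections of Segre varieties by `m + 1` bilinear forms. -/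
def SegreIn (C : Counts → Prop) (m : ℕ) : Prop :=
  ∀ (a b : ℕ) (T : Fin (m + 1) → Fin a → Fin b → ℤ),
    (∀ i j l, T i j l = -1 ∨ T i j l = 0 ∨ T i j l = 1) → C (segreCount T)

end Pool.Agent.H90.HW
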