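import Pool.Agent.H90.HW.Cubic

/-!
Statements of the modules of the dimension version: closed subschemes of dimension at most `d` of
arbitrary projective spaces.
-/

namespace Pool.Agent.H90.HW

open Pool.Agent.H73.Zeta MvPolynomial
open scoped LinearAlgebra.Projectivization

/-- Removal of the primes dividing `M`. -/
def restr (M : ℕ) (N : Counts) : Counts := fun p k => if (p : ℕ) ∣ M then 0 else N p k

/-- Membership in `C` after the removal of the primes dividing `M`, for all multiples `M` of a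
suitable number. -/
def Ev (C : Counts → Prop) (N : Counts) : Prop :=
  ∃ M₀ : ℕ, 0 < M₀ ∧ ∀ M : ℕ, 0 < M → M₀ ∣ M → C (restr M N)

/-- The numbers of common zeros of a finite set of polynomials. -/
noncomputable def affCount {n : ℕ} (F : Finset (MvPolynomial (Fin n) ℤ)) : Counts :=
  fun p k => cnt (fun x : Fin n → FF p k => ∀ f ∈ F, aeval x f = 0)

def AffIn (C : Counts → Prop) (m : ℕ) : Prop :=
  ∀ F : Finset (MvPolynomial (Fin m) ℤ), C (affCount F)

/-- The ideal generated by `F` over the rational numbers. -/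
noncomputable def idealQ {σ : Type} (F : Finset (MvPolynomial σ ℤ)) : Ideal (MvPolynomial σ ℚ) :=
  Ideal.span ((MvPolynomial.map (Int.castRingHom ℚ)) '' (F : Set (MvPolynomial σ ℤ)))

/-- The closed subscheme of the projective space over `ℚ` defined by `F` has dimension at most `d`:
the coordinate rings of its intersections with the charts `X j = 1` have Krull dimension at
most `d`. -/
def DimLE {n : ℕ} (F : Finset (MvPolynomial (Fin (n + 1)) ℤ)) (d : ℕ) : Prop :=
  ∀ j : Fin (n + 1), ringKrullDim (MvPolynomial (Fin (n + 1)) ℚ ⧸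
    (idealQ F ⊔ Ideal.span {X j - 1})) ≤ d

/-- All closed subschemes of dimension at most `d` of projective spaces. -/
def DimIn (C : Counts → Prop) (d : ℕ) : Prop :=
  ∀ (n : ℕ) (F : Finset (MvPolynomial (Fin (n + 1)) ℤ)), (∀ f ∈ F, ∃ e : ℕ, f.IsHomogeneous e) →
    DimLE F d → C (projCount F 1)

def SEvClosed : Prop := ∀ C : Counts → Prop, Closed C → Closed (Ev C)

/-- Noether normalization and Krull dimension (lying over, going up). -/
def SNoether : Prop := ∀ (A : Type) [CommRing A] [IsDomain A] [Algebra ℚ A] (s d : ℕ)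
  (g : MvPolynomial (Fin s) ℚ →ₐ[ℚ] A), Function.Injective g → g.toRingHom.IsIntegral →
  ringKrullDim A ≤ d → s ≤ d

/-- A domain of Krull dimension at most `d` of finite type over `ℚ` is birational to a subring
generated by `d + 1` elements: `φ` are these elements, every coordinate is of the form
`R i (φ) / c (φ)`. -/
def SBirational : Prop := ∀ (n d : ℕ) (P : Ideal (MvPolynomial (Fin n) ℚ)) (_ : P.IsPrime),
  ringKrullDim (MvPolynomial (Fin n) ℚ ⧸ P) ≤ d →
  ∃ (φ : Fin (d + 1) → MvPolynomial (Fin n) ℤ) (c : MvPolynomial (Fin (d + 1)) ℤ)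
    (R : Fin n → MvPolynomial (Fin (d + 1)) ℤ),
    MvPolynomial.map (Int.castRingHom ℚ) (aeval φ c) ∉ P ∧
    ∀ i, MvPolynomial.map (Int.castRingHom ℚ) (aeval φ c * X i - aeval φ (R i)) ∈ P

/-- Membership in the ideal over `ℚ` and points over fields of large characteristic. -/
def SInc : Prop := ∀ (n : ℕ) (F : Finset (MvPolynomial (Fin n) ℤ)) (f : MvPolynomial (Fin n) ℤ),
  MvPolynomial.map (Int.castRingHom ℚ) f ∈ idealQ F → ∃ M : ℕ, 0 < M ∧
    ∀ (K : Type) [Field K] (x : Fin n → K), (M : K) ≠ 0 → (∀ g ∈ F, aeval x g = 0) →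
      aeval x f = 0

/-- Homogenisation: `f (R / c)` multiplied by a power of `c`. -/
def SHomog : Prop := ∀ (n m : ℕ) (c : MvPolynomial (Fin m) ℤ) (R : Fin n → MvPolynomial (Fin m) ℤ)
  (f : MvPolynomial (Fin n) ℤ), ∃ (e : ℕ) (f' : MvPolynomial (Fin m) ℤ),
    ∀ (S : Type) [CommRing S] (u : Fin m → S) (y : Fin n → S),
      (∀ i, aeval u c * y i = aeval u (R i)) → aeval u f' = (aeval u c) ^ e * aeval y f

/-- The case of a prime ideal. -/
def SPrime : Prop := ∀ (C : Counts → Prop) (_ : Closed C) (d : ℕ), AffIn (Ev C) (d + 1) →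
  ∀ (n : ℕ) (F : Finset (MvPolynomial (Fin n) ℤ)), (idealQ F).IsPrime →
    ringKrullDim (MvPolynomial (Fin n) ℚ ⧸ idealQ F) ≤ d →
    ∃ h : MvPolynomial (Fin n) ℤ, MvPolynomial.map (Int.castRingHom ℚ) h ∉ idealQ F ∧
      ∀ [DecidableEq (MvPolynomial (Fin n) ℤ)], Ev C (affCount (insert h F)) → Ev C (affCount F)

/-- Affine schemes of dimension at most `d`. -/
def SDim : Prop := ∀ (C : Counts → Prop) (_ : Closed C) (d : ℕ), AffIn (Ev C) (d + 1) →
  ∀ (n : ℕ) (F : Finset (MvPolynomial (Fin n) ℤ)),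
    ringKrullDim (MvPolynomial (Fin n) ℚ ⧸ idealQ F) ≤ d → Ev C (affCount F)

/-- Projective schemes of dimension at most `d`. -/
def SProjDim : Prop := ∀ (C : Counts → Prop) (_ : Closed C) (d : ℕ), AffIn (Ev C) (d + 1) →
  DimIn (Ev C) d

/-- Closed subschemes of `ℙ^(d+1)` have dimension at most `d` or are everything. -/
def SConv : Prop := ∀ (C : Counts → Prop) (_ : Closed C) (d : ℕ), DimIn (Ev C) d →
  ProjIn (Ev C) (d + 1)

end Pool.Agent.H90.HW
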