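import Pool.Agent.H90.HW.DetGadget
import Pool.Agent.H90.HW.Stmts2

/-!
Determinantal hypersurfaces `det (x_0 T_0 + ... + x_m T_m) = 0` in `ℙ^m`.
-/

namespace Pool.Agent.H90.HW

open Pool.Agent.H73.Zeta Finset
open scoped LinearAlgebra.Projectivization

/-- The numbers of points of the determinantal hypersurface `det (x_0 T_0 + ... + x_m T_m) = 0`
in `ℙ^m`. -/
noncomputable def detCount {n a : ℕ} (T : Fin n → Fin a → Fin a → ℤ) : Counts :=
  fun p k => (Nat.card {x : ℙ (FF p k) (Fin n → FF p k) //
    (Matrix.of fun j l => ∑ i, (T i j l : FF p k) * x.rep i).det = 0} : ℤ)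

/-- All determinantal hypersurfaces in `ℙ^m`. -/
def DetIn (C : Counts → Prop) (m : ℕ) : Prop :=
  ∀ (a : ℕ) (T : Fin (m + 1) → Fin a → Fin a → ℤ),
    (∀ i j l, T i j l = -1 ∨ T i j l = 0 ∨ T i j l = 1) → C (detCount T)

theorem detIn_of_projIn {C : Counts → Prop} (hC : Closed C) {m : ℕ} (hP : ProjIn C m) :
    DetIn C m := by
  intro a T _
  have hd : (linMat T).det.IsHomogeneous a := by
    have := linMat_homogeneous T a id id
    rwa [Matrix.submatrix_id_id] at this
  refine hC.congr (fun p k hk => ?_) (hP {(linMat T).det} (fun f hf => ?_) 1 one_pos)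
  · unfold projCount detCount
    rw [if_neg (h90_not_dvd_one p)]
    congr 1
    apply Nat.card_congr
    apply Equiv.subtypeEquivRight
    intro x
    have h1 := aeval_linMat T x.rep a id id
    rw [Matrix.submatrix_id_id, Matrix.submatrix_id_id] at h1
    simp only [Finset.mem_singleton, forall_eq]
    rw [h1]
  · rw [Finset.mem_singleton] at hf
    rw [hf]
    exact ⟨a, hd⟩

/-- Decomposition of a cone by the first coordinate. -/
theorem cnt_split {K : Type} [Field K] [Finite K] {m : ℕ} (P : (Fin (m + 1) → K) → Prop)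
    (hP : ∀ (a : Kˣ) (v : Fin (m + 1) → K), P (a • v) ↔ P v) :
    cnt P = ((Nat.card K : ℤ) - 1) * cnt (fun x : Fin m → K => P (Fin.cons 1 x)) +
      cnt (fun x : Fin m → K => P (Fin.cons 0 x)) := by
  classical
  have := Fintype.ofFinite K
  let E : K × (Fin m → K) ≃ (Fin (m + 1) → K) :=
    { toFun := fun z => Fin.cons z.1 z.2
      invFun := fun u => (u 0, Fin.tail u)
      left_inv := fun z => by simp
      right_inv := fun u => by simp }
  rw [← cnt_equiv E, cnt_prod]
  have h0 : ∀ c : K, cnt (fun x : Fin m → K => P (E (c, x))) =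
      if c = 0 then cnt (fun x : Fin m → K => P (Fin.cons 0 x))
        else cnt (fun x : Fin m → K => P (Fin.cons 1 x)) := by
    intro c
    split_ifs with hc
    · subst hc
      rfl
    · rw [← cnt_equiv (MulAction.toPerm (Units.mk0 c hc) : (Fin m → K) ≃ (Fin m → K))]
      apply cnt_congr
      intro x
      have h1 : E (c, (MulAction.toPerm (Units.mk0 c hc) : (Fin m → K) ≃ (Fin m → K)) x) =
          (Units.mk0 c hc) • (Fin.cons 1 x : Fin (m + 1) → K) := by
        funext i
        refine Fin.cases ?_ (fun i => ?_) i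
        · simp [E, Units.smul_def]
        · simp [E, Units.smul_def]
      rw [h1, hP]
  rw [Finset.sum_congr rfl (fun c _ => h0 c), ← Finset.add_sum_erase _ _ (Finset.mem_univ (0 : K)),
    if_pos rfl, add_comm]
  congr 1
  rw [Finset.sum_congr rfl (g := fun _ => cnt (fun x : Fin m → K => P (Fin.cons 1 x)))
    (fun c hc => if_neg (Finset.ne_of_mem_erase hc)), Finset.sum_const,
    Finset.card_erase_of_mem (Finset.mem_univ _), nsmul_eq_mul, Finset.card_univ,
    Nat.cast_sub Fintype.card_pos, Nat.card_eq_fintype_card]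
  simp

/-- The determinant of the matrix of linear forms. -/
theorem det_smul_iff {K : Type} [Field K] {n a : ℕ} (T : Fin n → Fin a → Fin a → ℤ) (c : Kˣ)
    (v : Fin n → K) :
    (Matrix.of fun j l => ∑ i, (T i j l : K) * (c • v) i).det = 0 ↔
      (Matrix.of fun j l => ∑ i, (T i j l : K) * v i).det = 0 := by
  have h1 : (Matrix.of fun j l => ∑ i, (T i j l : K) * (c • v) i) =
      (c : K) • (Matrix.of fun j l => ∑ i, (T i j l : K) * v i : Matrix (Fin a) (Fin a) K) := by
    ext j l
    simp only [Matrix.of_apply, Matrix.smul_apply, smul_eq_mul, Finset.mul_sum, Pi.smul_apply,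
      Units.smul_def]
    apply Finset.sum_congr rfl
    intro i _
    ring
  rw [h1, Matrix.det_smul]
  constructor
  · intro h
    exact (mul_eq_zero.1 h).resolve_left (pow_ne_zero _ c.ne_zero)
  · intro h
    rw [h, mul_zero]

/-- Points of a determinantal hypersurface, of its part at infinity, and of its affine part. -/
theorem det_formula {m b : ℕ} (T : Fin (m + 1) → Fin (b + 1) → Fin (b + 1) → ℤ)
    (f : MvPolynomial (Fin m) ℤ)
    (hf : ∀ (K : Type) [Field K] (x : Fin m → K),
        (Matrix.of fun j l => ∑ i, (T i j l : K) * (Fin.cons 1 x : Fin (m + 1) → K) i).det = 0 ↔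
          MvPolynomial.aeval x f = 0) (p : Nat.Primes) {k : ℕ} (hk : k ≠ 0) :
    (p : ℤ) ^ k * detCount T p k - detCount (fun i => if i = 0 then 0 else T i) p k =
      (p : ℤ) ^ k * cnt (fun x : Fin m → FF p k => MvPolynomial.aeval x f = 0) - 1 := by
  classical
  have := Fintype.ofFinite (FF p k)
  have hq : ((p : ℤ) ^ k - 1) ≠ 0 := by
    have h2 : (1 : ℤ) < (p : ℤ) ^ k := one_lt_pow₀ (by exact_mod_cast p.2.one_lt) hk
    omega
  let T' : Fin (m + 1) → Fin (b + 1) → Fin (b + 1) → ℤ := fun i => if i = 0 then 0 else T i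
  -- cones
  have hcone : ∀ U : Fin (m + 1) → Fin (b + 1) → Fin (b + 1) → ℤ,
      ((p : ℤ) ^ k - 1) * detCount U p k + 1 = cnt (fun v : Fin (m + 1) → FF p k =>
        (Matrix.of fun j l => ∑ i, (U i j l : FF p k) * v i).det = 0) := by
    intro U
    have h1 := card_proj (K := FF p k) (fun v : Fin (m + 1) → FF p k =>
        (Matrix.of fun j l => ∑ i, (U i j l : FF p k) * v i).det = 0)
      (fun c v => det_smul_iff U c v)
    rw [card_FF p hk] at h1
    have h2 : ((p : ℤ) ^ k - 1) * detCount U p k = _ := h1
    rw [h2, cnt_sum, cnt_sum]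
    rw [← Finset.add_sum_erase _ _ (Finset.mem_univ (0 : Fin (m + 1) → FF p k)),
      ← Finset.add_sum_erase (Finset.univ) (fun v : Fin (m + 1) → FF p k => if
        (Matrix.of fun j l => ∑ i, (U i j l : FF p k) * v i).det = 0 then (1 : ℤ) else 0)
        (Finset.mem_univ (0 : Fin (m + 1) → FF p k))]
    rw [if_neg (fun h => h.1 rfl), if_pos, zero_add, add_comm]
    · congr 1
      apply Finset.sum_congr rfl
      intro v hv
      have hv0 : v ≠ 0 := Finset.ne_of_mem_erase hv
      simp only [ne_eq, hv0, not_false_eq_true, true_and]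
    · have h3 : (Matrix.of fun j l => ∑ i, (U i j l : FF p k) * (0 : Fin (m + 1) → FF p k) i) =
          (0 : Matrix (Fin (b + 1)) (Fin (b + 1)) (FF p k)) := by
        ext j l
        simp
      rw [h3, Matrix.det_zero]
  -- splittings
  have hs := cnt_split (K := FF p k) (fun v : Fin (m + 1) → FF p k =>
      (Matrix.of fun j l => ∑ i, (T i j l : FF p k) * v i).det = 0)
      (fun c v => det_smul_iff T c v)
  have hs' : cnt (fun v : Fin (m + 1) → FF p k =>
      (Matrix.of fun j l => ∑ i, (T' i j l : FF p k) * v i).det = 0) =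
      (p : ℤ) ^ k * cnt (fun x : Fin m → FF p k => (Matrix.of fun j l => ∑ i, (T i j l : FF p k) *
        (Fin.cons 0 x : Fin (m + 1) → FF p k) i).det = 0) := by
    let E : FF p k × (Fin m → FF p k) ≃ (Fin (m + 1) → FF p k) :=
      { toFun := fun z => Fin.cons z.1 z.2
        invFun := fun u => (u 0, Fin.tail u)
        left_inv := fun z => by simp
        right_inv := fun u => by simp }
    rw [← cnt_equiv E, cnt_prod]
    have h4 : ∀ c : FF p k, cnt (fun x : Fin m → FF p k =>
        (Matrix.of fun j l => ∑ i, (T' i j l : FF p k) * (E (c, x)) i).det = 0) =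
        cnt (fun x : Fin m → FF p k => (Matrix.of fun j l => ∑ i, (T i j l : FF p k) *
          (Fin.cons 0 x : Fin (m + 1) → FF p k) i).det = 0) := by
      intro c
      apply cnt_congr
      intro x
      have h5 : (Matrix.of fun j l => ∑ i, (T' i j l : FF p k) * (E (c, x)) i :
          Matrix (Fin (b + 1)) (Fin (b + 1)) (FF p k)) =
          (Matrix.of fun j l => ∑ i, (T i j l : FF p k) *
          (Fin.cons 0 x : Fin (m + 1) → FF p k) i) := by
        ext j l
        simp only [Matrix.of_apply, T', E, Equiv.coe_fn_mk]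
        rw [Fin.sum_univ_succ, Fin.sum_univ_succ]
        simp [Fin.succ_ne_zero]
      rw [h5]
    rw [Finset.sum_congr rfl (fun c _ => h4 c), Finset.sum_const, nsmul_eq_mul, Finset.card_univ,
      ← Nat.card_eq_fintype_card, card_FF p hk]
  have h1 := hcone T
  have h2 := hcone T'
  have h3 : cnt (fun x : Fin m → FF p k => (Matrix.of fun j l => ∑ i, (T i j l : FF p k) *
      (Fin.cons 1 x : Fin (m + 1) → FF p k) i).det = 0) =
      cnt (fun x : Fin m → FF p k => MvPolynomial.aeval x f = 0) :=
    cnt_congr (fun x => hf (FF p k) x)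
  rw [hs, card_FF p hk, h3] at h1
  rw [hs'] at h2
  have h4 : ((p : ℤ) ^ k - 1) * ((p : ℤ) ^ k * detCount T p k - detCount T' p k) =
      ((p : ℤ) ^ k - 1) * ((p : ℤ) ^ k *
        cnt (fun x : Fin m → FF p k => MvPolynomial.aeval x f = 0) - 1) := by
    linear_combination (p : ℤ) ^ k * h1 - h2
  exact mul_left_cancel₀ hq h4

/-- From determinantal hypersurfaces in `ℙ^m` to affine systems in `m` variables. -/
theorem affIn_of_detIn {C : Counts → Prop} (hC : Closed C) {m : ℕ} (hD : DetIn C m) :
    AffIn C m := by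
  classical
  have h1 : ∀ f : MvPolynomial (Fin m) ℤ, C (fun p k => (p : ℤ) ^ k *
      cnt (fun x : Fin m → FF p k => MvPolynomial.aeval x f = 0) - 1) := by
    intro f
    obtain ⟨b, T, hT, hf⟩ := detGadget f
    refine hC.congr (fun p k hk => det_formula T f hf p hk)
      (h90_sub hC (hC.shift (hD _ T hT)) (hD _ (fun i => if i = 0 then 0 else T i) ?_))
    intro i j l
    by_cases hi : i = 0
    · simp [hi]
    · simp only [hi, if_false]
      exact hT i j l
  have hone : C (fun _ _ => 1) := by
    refine hC.congr (fun p k hk => ?_) (hC.neg (h1 1))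
    have h2 : cnt (fun x : Fin m → FF p k =>
        MvPolynomial.aeval x (1 : MvPolynomial (Fin m) ℤ) = 0) = 0 := by
      unfold cnt
      have : IsEmpty {x : Fin m → FF p k //
          MvPolynomial.aeval x (1 : MvPolynomial (Fin m) ℤ) = 0} := by
        constructor
        rintro ⟨x, hx⟩
        rw [map_one] at hx
        exact one_ne_zero hx
      simp
    rw [h2]
    ring
  have h2 : ∀ f : MvPolynomial (Fin m) ℤ, C (fun p k =>
      cnt (fun x : Fin m → FF p k => MvPolynomial.aeval x f = 0)) := by
    intro f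
    apply hC.unshift
    refine hC.congr (fun p k hk => ?_) (hC.add (h1 f) hone)
    ring
  have h3 : ∀ (F : Finset (MvPolynomial (Fin m) ℤ)) (g : MvPolynomial (Fin m) ℤ), C (fun p k =>
      cnt (fun x : Fin m → FF p k => (∀ f ∈ F, MvPolynomial.aeval x f = 0) ∧
        MvPolynomial.aeval x g ≠ 0)) := by
    intro F
    induction F using Finset.induction_on with
    | empty =>
      intro g
      refine hC.congr (fun p k hk => ?_) (h90_sub hC (h90_shift hC hone m) (h2 g))
      have := Fintype.ofFinite (FF p k)
      have h4 : ((p : ℤ) ^ k) ^ m * 1 = Nat.card (Fin m → FF p k) := by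
        rw [card_fun, card_FF p hk, Fintype.card_fin, mul_one]
      rw [h4, ← cnt_true, cnt_sum, cnt_sum, cnt_sum, ← Finset.sum_sub_distrib]
      apply Finset.sum_congr rfl
      intro x _
      by_cases hx : MvPolynomial.aeval x g = 0 <;> simp [hx]
    | insert f F _ ih =>
      intro g
      refine hC.congr (fun p k hk => ?_) (h90_sub hC (ih g) (ih (f * g)))
      have := Fintype.ofFinite (FF p k)
      rw [cnt_sum, cnt_sum, cnt_sum, ← Finset.sum_sub_distrib]
      apply Finset.sum_congr rfl
      intro x _
      rw [map_mul]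
      simp only [Finset.mem_insert, forall_eq_or_imp]
      by_cases hx : MvPolynomial.aeval x g = 0
      · simp [hx]
      · by_cases hy : MvPolynomial.aeval x f = 0
        · simp [hx, hy]
        · simp [hx, hy]
  intro F
  refine hC.congr (fun p k hk => ?_) (h3 F 1)
  unfold affCount
  apply cnt_congr
  intro x
  simp

end Pool.Agent.H90.HW
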