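import Pool.Agent.H90.HW.Stmts

/-!
Square systems: every polynomial vanishes exactly where the determinant of a matrix of linear forms
with coefficients `0, 1, -1` vanishes.  (The construction is the one of helper87's `Gadget`; here
we also keep track of the number of equations.)
-/

namespace Pool.Agent.H90.HW

open Pool.Agent.H73.Zeta Finset

section Gadget

variable {m : ℕ}

/-- a linear system, with coefficients linear in `(1, x)`, whose solutions are
`z v = P v (x) * z none` -/
private def Gad (V : Type) [Fintype V] (P : V → MvPolynomial (Fin m) ℤ) : Prop :=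
  ∃ (J : Type) (_ : Fintype J) (T : Fin (m + 1) → J → Option V → ℤ),
    Fintype.card J = Fintype.card V ∧
    (∀ i j l, T i j l = -1 ∨ T i j l = 0 ∨ T i j l = 1) ∧
    ∀ (K : Type) [Field K] (x : Fin m → K) (z : Option V → K),
      (∀ j, ∑ i, ∑ l, (T i j l : K) * (Fin.cons 1 x : Fin (m + 1) → K) i * z l = 0) ↔
      ∀ v, z (some v) = MvPolynomial.aeval x (P v) * z none

private theorem gad_empty : Gad (m := m) Empty (fun v => v.elim) := by
  refine ⟨Empty, inferInstance, fun _ j _ => j.elim, rfl, fun _ j _ => j.elim, ?_⟩
  intro K _ x z
  exact ⟨fun _ v => v.elim, fun _ j => j.elim⟩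

private theorem gad_union {V W : Type} [Fintype V] [Fintype W] {P : V → MvPolynomial (Fin m) ℤ}
    {Q : W → MvPolynomial (Fin m) ℤ} (hP : Gad V P) (hQ : Gad W Q) :
    Gad (V ⊕ W) (Sum.elim P Q) := by
  obtain ⟨J, _, T, hJ, hT, h1⟩ := hP
  obtain ⟨J', _, T', hJ', hT', h2⟩ := hQ
  refine ⟨J ⊕ J', inferInstance, fun i j l => match j, l with
    | Sum.inl j, none => T i j none
    | Sum.inl j, some (Sum.inl v) => T i j (some v)
    | Sum.inl _, some (Sum.inr _) => 0
    | Sum.inr j, none => T' i j none
    | Sum.inr _, some (Sum.inl _) => 0
    | Sum.inr j, some (Sum.inr w) => T' i j (some w), ?_, ?_, ?_⟩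
  · rw [Fintype.card_sum, Fintype.card_sum, hJ, hJ']
  · rintro i (j | j) (_ | (v | w))
    · exact hT i j none
    · exact hT i j (some v)
    · exact Or.inr (Or.inl rfl)
    · exact hT' i j none
    · exact Or.inr (Or.inl rfl)
    · exact hT' i j (some w)
  · intro K _ x z
    have e1 := h1 K x (fun l => match l with
      | none => z none
      | some v => z (some (Sum.inl v)))
    have e2 := h2 K x (fun l => match l with
      | none => z none
      | some v => z (some (Sum.inr v)))
    simp only [Fintype.sum_option] at e1 e2
    rw [Sum.forall, Sum.forall]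
    simp only [Fintype.sum_option, Fintype.sum_sum_type, Sum.elim_inl, Sum.elim_inr, Int.cast_zero,
      zero_mul, sum_const_zero, add_zero, zero_add]
    exact and_congr e1 e2

private theorem gad_ext {V : Type} [Fintype V] {P : V → MvPolynomial (Fin m) ℤ} (hP : Gad V P)
    (c : Fin (m + 1) → Option V → ℤ) (hc : ∀ i l, c i l = -1 ∨ c i l = 0 ∨ c i l = 1)
    (G : MvPolynomial (Fin m) ℤ)
    (hG : ∀ (K : Type) [Field K] (x : Fin m → K), MvPolynomial.aeval x G = ∑ i,
      ((c i none : K) * (Fin.cons 1 x : Fin (m + 1) → K) i + ∑ v, (c i (some v) : K) *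
        (Fin.cons 1 x : Fin (m + 1) → K) i * MvPolynomial.aeval x (P v))) :
    Gad (Option V) (fun v => v.elim G P) := by
  obtain ⟨J, _, T, hJ, hT, h1⟩ := hP
  refine ⟨Option J, inferInstance, fun i j l => match j, l with
    | none, none => - c i none
    | none, some none => if i = 0 then 1 else 0
    | none, some (some v) => - c i (some v)
    | some j, none => T i j none
    | some _, some none => 0
    | some j, some (some v) => T i j (some v), ?_, ?_, ?_⟩
  · rw [Fintype.card_option, Fintype.card_option, hJ]
  · rintro i (_ | j) (_ | (_ | v))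
    · rcases hc i none with h | h | h <;> simp [h]
    · by_cases h : i = 0 <;> simp [h]
    · rcases hc i (some v) with h | h | h <;> simp [h]
    · exact hT i j none
    · exact Or.inr (Or.inl rfl)
    · exact hT i j (some v)
  · intro K _ x z
    have e1 := h1 K x (fun l => match l with
      | none => z none
      | some v => z (some (some v)))
    simp only [Fintype.sum_option] at e1
    rw [Option.forall, Option.forall]
    simp only [Fintype.sum_option, Option.elim_none, Option.elim_some, Int.cast_zero,
      zero_mul, zero_add]
    rw [and_comm, and_comm (a := z (some none) = _), e1]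
    apply and_congr_right
    intro h2
    have h3 : ∑ i : Fin (m + 1), (((- c i none : ℤ) : K) * (Fin.cons 1 x : Fin (m + 1) → K) i *
        z none + ((((if i = 0 then 1 else 0 : ℤ) : K)) * (Fin.cons 1 x : Fin (m + 1) → K) i *
        z (some none) + ∑ v, ((- c i (some v) : ℤ) : K) * (Fin.cons 1 x : Fin (m + 1) → K) i *
          z (some (some v)))) =
        z (some none) - MvPolynomial.aeval x G * z none := by
      rw [hG K x, sum_mul, sum_add_distrib, sum_add_distrib]
      have h4 : ∑ i : Fin (m + 1), ((((if i = 0 then 1 else 0 : ℤ) : K)) *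
          (Fin.cons 1 x : Fin (m + 1) → K) i * z (some none)) = z (some none) := by
        rw [sum_eq_single 0]
        · simp
        · intro i _ hi
          simp [hi]
        · intro h
          exact absurd (mem_univ _) h
      rw [h4]
      have h5 : ∀ i : Fin (m + 1), ((c i none : K) * (Fin.cons 1 x : Fin (m + 1) → K) i +
          ∑ v, (c i (some v) : K) * (Fin.cons 1 x : Fin (m + 1) → K) i *
            MvPolynomial.aeval x (P v)) * z none =
          - (((- c i none : ℤ) : K) * (Fin.cons 1 x : Fin (m + 1) → K) i * z none) -
            ∑ v, ((- c i (some v) : ℤ) : K) * (Fin.cons 1 x : Fin (m + 1) → K) i *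
              z (some (some v)) := by
        intro i
        rw [add_mul, sum_mul, sub_eq_add_neg, ← sum_neg_distrib]
        congr 1
        · push_cast
          ring
        · refine sum_congr rfl fun v _ => ?_
          rw [h2 v]
          push_cast
          ring
      rw [sum_congr rfl (fun i _ => h5 i), sum_sub_distrib, sum_neg_distrib]
      ring
    rw [h3, sub_eq_zero]

/-- the polynomial `f` can be computed -/
private def Gcomp (f : MvPolynomial (Fin m) ℤ) : Prop :=
  ∃ (V : Type) (_ : Fintype V) (P : V → MvPolynomial (Fin m) ℤ), Gad V P ∧ ∃ v, P v = f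

private theorem gad_C (n : ℤ) : Gcomp (MvPolynomial.C n : MvPolynomial (Fin m) ℤ) := by
  induction n using Int.induction_on with
  | zero =>
    refine ⟨_, inferInstance, _, gad_ext gad_empty (fun _ _ => 0) (by simp)
      (MvPolynomial.C 0) ?_, none, rfl⟩
    intro K _ x
    simp
  | succ n ih =>
    obtain ⟨V, _, P, hP, v, hv⟩ := ih
    classical
    refine ⟨_, inferInstance, _, gad_ext hP (fun i l => match l with
      | none => if i = 0 then 1 else 0
      | some u => if i = 0 ∧ u = v then 1 else 0) ?_
      (MvPolynomial.C ((n : ℤ) + 1)) ?_, none, rfl⟩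
    · rintro i (_ | u)
      · by_cases h : i = 0 <;> simp [h]
      · by_cases h : i = 0 ∧ u = v <;> simp [h]
    · intro K _ x
      rw [sum_eq_single 0]
      · rw [sum_eq_single v]
        · rw [hv]
          simp
          ring
        · intro u _ hu
          simp [hu]
        · intro h
          exact absurd (mem_univ _) h
      · intro i _ hi
        simp [hi]
      · intro h
        exact absurd (mem_univ _) h
  | pred n ih =>
    obtain ⟨V, _, P, hP, v, hv⟩ := ih
    classical
    refine ⟨_, inferInstance, _, gad_ext hP (fun i l => match l with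
      | none => if i = 0 then -1 else 0
      | some u => if i = 0 ∧ u = v then 1 else 0) ?_
      (MvPolynomial.C (-(n : ℤ) - 1)) ?_, none, rfl⟩
    · rintro i (_ | u)
      · by_cases h : i = 0 <;> simp [h]
      · by_cases h : i = 0 ∧ u = v <;> simp [h]
    · intro K _ x
      rw [sum_eq_single 0]
      · rw [sum_eq_single v]
        · rw [hv]
          simp
          ring
        · intro u _ hu
          simp [hu]
        · intro h
          exact absurd (mem_univ _) h
      · intro i _ hi
        simp [hi]
      · intro h
        exact absurd (mem_univ _) h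

private theorem gad_add {f g : MvPolynomial (Fin m) ℤ} (hf : Gcomp f) (hg : Gcomp g) :
    Gcomp (f + g) := by
  obtain ⟨V, _, P, hP, v, hv⟩ := hf
  obtain ⟨W, _, Q, hQ, w, hw⟩ := hg
  classical
  refine ⟨_, inferInstance, _, gad_ext (gad_union hP hQ) (fun i l => match l with
    | none => 0
    | some (Sum.inl u) => if i = 0 ∧ u = v then 1 else 0
    | some (Sum.inr u) => if i = 0 ∧ u = w then 1 else 0) ?_
    (f + g) ?_, none, rfl⟩
  · rintro i (_ | (u | u))
    · exact Or.inr (Or.inl rfl)
    · by_cases h : i = 0 ∧ u = v <;> simp [h]
    · by_cases h : i = 0 ∧ u = w <;> simp [h]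
  · intro K _ x
    rw [sum_eq_single 0]
    · rw [Fintype.sum_sum_type, sum_eq_single v, sum_eq_single w]
      · simp [hv, hw]
      · intro u _ hu
        simp [hu]
      · intro h
        exact absurd (mem_univ _) h
      · intro u _ hu
        simp [hu]
      · intro h
        exact absurd (mem_univ _) h
    · intro i _ hi
      simp [hi]
    · intro h
      exact absurd (mem_univ _) h

private theorem gad_X {f : MvPolynomial (Fin m) ℤ} (hf : Gcomp f) (j : Fin m) :
    Gcomp (f * MvPolynomial.X j) := by
  obtain ⟨V, _, P, hP, v, hv⟩ := hf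
  classical
  refine ⟨_, inferInstance, _, gad_ext hP (fun i l => match l with
    | none => 0
    | some u => if i = j.succ ∧ u = v then 1 else 0) ?_
    (f * MvPolynomial.X j) ?_, none, rfl⟩
  · rintro i (_ | u)
    · exact Or.inr (Or.inl rfl)
    · by_cases h : i = j.succ ∧ u = v <;> simp [h]
  · intro K _ x
    rw [sum_eq_single j.succ]
    · rw [sum_eq_single v]
      · rw [hv]
        simp
        ring
      · intro u _ hu
        simp [hu]
      · intro h
        exact absurd (mem_univ _) h
    · intro i _ hi
      simp [hi]
    · intro h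
      exact absurd (mem_univ _) h

private theorem gad_all (f : MvPolynomial (Fin m) ℤ) : Gcomp f := by
  induction f using MvPolynomial.induction_on with
  | C n => exact gad_C n
  | add f g hf hg => exact gad_add hf hg
  | mul_X f j hf => exact gad_X hf j

/-- **Universality of determinants.**  For every polynomial `f` there is a square matrix of linear
forms in `(1, x)`, with coefficients `0, 1, -1`, whose determinant vanishes exactly where `f`
vanishes. -/
theorem detGadget (f : MvPolynomial (Fin m) ℤ) :
    ∃ (b : ℕ) (T : Fin (m + 1) → Fin (b + 1) → Fin (b + 1) → ℤ),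
      (∀ i j l, T i j l = -1 ∨ T i j l = 0 ∨ T i j l = 1) ∧
      ∀ (K : Type) [Field K] (x : Fin m → K),
        (Matrix.of fun j l => ∑ i, (T i j l : K) * (Fin.cons 1 x : Fin (m + 1) → K) i).det = 0 ↔
          MvPolynomial.aeval x f = 0 := by
  classical
  obtain ⟨V, _, P, ⟨J, _, T, hJ, hT, h1⟩, o, ho⟩ := gad_all f
  let T' : Fin (m + 1) → Option J → Option V → ℤ := fun i j l => match j with
    | some j => T i j l
    | none => if i = 0 ∧ l = some o then 1 else 0
  let eJ : Fin (Fintype.card V + 1) ≃ Option J :=
    (Fintype.equivFinOfCardEq (by rw [Fintype.card_option, hJ])).symm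
  let eV : Fin (Fintype.card V + 1) ≃ Option V :=
    (Fintype.equivFinOfCardEq (by rw [Fintype.card_option])).symm
  refine ⟨Fintype.card V, fun i j l => T' i (eJ j) (eV l), ?_, ?_⟩
  · intro i j l
    show T' i (eJ j) (eV l) = -1 ∨ T' i (eJ j) (eV l) = 0 ∨ T' i (eJ j) (eV l) = 1
    rcases eJ j with _ | j'
    · by_cases h : i = 0 ∧ eV l = some o
      · exact Or.inr (Or.inr (if_pos h))
      · exact Or.inr (Or.inl (if_neg h))
    · exact hT i j' (eV l)
  · intro K _ x
    show (Matrix.of fun j l => ∑ i, ((T' i (eJ j) (eV l) : ℤ) : K) *
        (Fin.cons 1 x : Fin (m + 1) → K) i).det = 0 ↔ _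
    rw [← Matrix.exists_mulVec_eq_zero_iff]
    have h3 : ∀ z : Option V → K, ((Matrix.of fun j l => ∑ i, ((T' i (eJ j) (eV l) : ℤ) : K) *
        (Fin.cons 1 x : Fin (m + 1) → K) i).mulVec (fun l => z (eV l)) = 0 ↔
        (∀ v, z (some v) = MvPolynomial.aeval x (P v) * z none) ∧ z (some o) = 0) := by
      intro z
      have h4 : ∀ j : Fin (Fintype.card V + 1),
          (Matrix.of fun j l => ∑ i, ((T' i (eJ j) (eV l) : ℤ) : K) *
            (Fin.cons 1 x : Fin (m + 1) → K) i).mulVec (fun l => z (eV l)) j =
          ∑ i, ∑ l, ((T' i (eJ j) l : ℤ) : K) * (Fin.cons 1 x : Fin (m + 1) → K) i * z l := by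
        intro j
        rw [Matrix.mulVec, dotProduct]
        simp only [Matrix.of_apply]
        rw [← Equiv.sum_comp eV.symm]
        simp only [Equiv.apply_symm_apply, sum_mul]
        rw [sum_comm]
      rw [funext_iff]
      simp only [h4, Pi.zero_apply]
      rw [eJ.forall_congr_left (p := fun j => ∑ i, ∑ l, ((T' i (eJ j) l : ℤ) : K) *
        (Fin.cons 1 x : Fin (m + 1) → K) i * z l = 0)]
      simp only [Equiv.apply_symm_apply]
      rw [Option.forall, and_comm]
      refine and_congr (h1 K x z) ?_
      have h5 : ∑ i, ∑ l, ((T' i none l : ℤ) : K) * (Fin.cons 1 x : Fin (m + 1) → K) i *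
          z l = z (some o) := by
        rw [sum_eq_single 0]
        · rw [sum_eq_single (some o)]
          · simp [T']
          · intro l _ hl
            simp [T', hl]
          · intro h
            exact absurd (mem_univ _) h
        · intro i _ hi
          apply sum_eq_zero
          intro l _
          simp [T', hi]
        · intro h
          exact absurd (mem_univ _) h
      rw [h5]
    constructor
    · rintro ⟨w, hw, hw'⟩
      have h6 : w = fun l => (fun u => w (eV.symm u)) (eV l) := by
        funext l
        simp
      rw [h6] at hw'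
      obtain ⟨h7, h8⟩ := (h3 (fun u => w (eV.symm u))).1 hw'
      by_contra h9
      rw [h7 o, ho] at h8
      have h10 : w (eV.symm none) = 0 := (mul_eq_zero.1 h8).resolve_left h9
      apply hw
      funext l
      have h11 : ∀ u : Option V, w (eV.symm u) = 0 := by
        rintro (_ | v)
        · exact h10
        · rw [h7 v, h10, mul_zero]
      have := h11 (eV l)
      simpa using this
    · intro hf
      refine ⟨fun l => (fun u : Option V => u.elim 1 (fun v => MvPolynomial.aeval x (P v))) (eV l),
        ?_, ?_⟩
      · intro h0
        have := congrFun h0 (eV.symm none)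
        simp at this
      · refine (h3 (fun u : Option V => u.elim 1 (fun v => MvPolynomial.aeval x (P v)))).2
          ⟨fun v => ?_, ?_⟩
        · simp
        · show MvPolynomial.aeval x (P o) = 0
          rw [ho, hf]

end Gadget

end Pool.Agent.H90.HW
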