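import Pool.Agent.H90.HW.Stmts2

/-!
Assembly of the dimension version, from the statements of the modules.
-/

namespace Pool.Agent.H90.HW

open Pool.Agent.H73.Zeta

theorem dimIn_iff (hE : SEvClosed) (hP : SProjDim) (hV : SConv) {C : Counts → Prop}
    (hC : Closed C) (d : ℕ) : DimIn (Ev C) d ↔ SegreIn (Ev C) (d + 1) :=
  ⟨fun h => (projIn_iff (hE C hC) (d + 1)).1 (hV C hC d h),
    fun h => hP C hC d (affine gadget cone h90_flat dehom (Ev C) (hE C hC) (d + 1) h)⟩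

theorem restr_projCount {n : ℕ} (F : Finset (MvPolynomial (Fin (n + 1)) ℤ)) (M : ℕ) :
    restr M (projCount F 1) = projCount F M := by
  funext p k
  unfold restr projCount
  by_cases h : (p : ℕ) ∣ M
  · simp [h]
  · have h1 : ¬ (p : ℕ) ∣ 1 := fun h1 => p.2.one_lt.ne' (Nat.dvd_one.1 h1)
    simp [h, h1]

theorem ev_iff_of_eq {C : Counts → Prop} {N : Counts} {N' : ℕ → Counts}
    (h : ∀ M, restr M N = N' M) :
    Ev C N ↔ ∃ M₀ : ℕ, 0 < M₀ ∧ ∀ M : ℕ, 0 < M → M₀ ∣ M → C (N' M) := by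
  unfold Ev
  simp only [h]

end Pool.Agent.H90.HW
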