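import Pool.Agent.H90.HW.Defs

/-!
Examples of families of groups of functions: meromorphic continuation, and the Riemann hypothesis
in the half plane to the right of the critical line.
-/

namespace Pool.Agent.H90.HW

open Complex

/-- Functions which agree in a right half plane with a meromorphic function on the complex
plane satisfying, in every weight `w`, that all its zeros and poles lie in `Z w`. -/
def merFamily (Z : ℤ → Set ℂ) (hZ : ∀ w s, s + 1 ∈ Z (w + 2) ↔ s ∈ Z w) : Family where
  mem w F := ∃ g : ℂ → ℂ, Meromorphic g ∧ (∀ s, meromorphicOrderAt g s ≠ 0 → s ∈ Z w) ∧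
    ∃ c : ℝ, ∀ s : ℂ, c < s.re → g s = F s
  one w := by
    refine ⟨fun _ => 1, fun s => MeromorphicAt.const 1 s, fun s hs => ?_, 0, fun s _ => rfl⟩
    exfalso
    apply hs
    have h : AnalyticAt ℂ (fun _ : ℂ => (1 : ℂ)) s := analyticAt_const
    exact h.meromorphicNFAt.meromorphicOrderAt_eq_zero_iff.2 one_ne_zero
  mul w F F' := by
    rintro ⟨g, g1, g2, c, g3⟩ ⟨g', g1', g2', c', g3'⟩
    refine ⟨g * g', fun s => (g1 s).mul (g1' s), fun s hs => ?_, max c c', fun s hs => ?_⟩
    · rw [meromorphicOrderAt_mul (g1 s) (g1' s)] at hs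
      by_cases h0 : meromorphicOrderAt g s = 0
      · rw [h0, zero_add] at hs
        exact g2' s hs
      · exact g2 s h0
    · rw [max_lt_iff] at hs
      rw [Pi.mul_apply, Pi.mul_apply, g3 s hs.1, g3' s hs.2]
  inv w F := by
    rintro ⟨g, g1, g2, c, g3⟩
    refine ⟨g⁻¹, fun s => (g1 s).inv, fun s hs => g2 s ?_, c, fun s hs => ?_⟩
    · intro h0
      rw [meromorphicOrderAt_inv, h0, neg_zero] at hs
      exact hs rfl
    · rw [Pi.inv_apply, Pi.inv_apply, g3 s hs]
  shift w F := by
    have hZ' : ∀ s, s ∈ Z (w + 2) ↔ s - 1 ∈ Z w := by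
      intro s
      have := hZ w (s - 1)
      rwa [sub_add_cancel] at this
    constructor
    · rintro ⟨g, g1, g2, c, g3⟩
      refine ⟨fun s => g (s + 1), fun s => ?_, fun s hs => ?_, c - 1, fun s hs => ?_⟩
      · exact (g1 (s + 1)).comp_analyticAt (f := g) (g := fun s => s + 1) (by fun_prop)
      · rw [meromorphicOrderAt_fun_comp_add_const_eq_meromorphicOrderAt] at hs
        exact (hZ w s).1 (g2 _ hs)
      · have h1 := g3 (s + 1) (by simp only [add_re, one_re]; linarith)
        simp only [add_sub_cancel_right] at h1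
        exact h1
    · rintro ⟨g, g1, g2, c, g3⟩
      refine ⟨fun s => g (s - 1), fun s => ?_, fun s hs => ?_, c + 1, fun s hs => ?_⟩
      · exact (g1 (s - 1)).comp_analyticAt (f := g) (g := fun s => s - 1) (by fun_prop)
      · simp only [sub_eq_add_neg] at hs
        rw [meromorphicOrderAt_fun_comp_add_const_eq_meromorphicOrderAt] at hs
        exact (hZ' s).2 (g2 _ hs)
      · exact g3 (s - 1) (by simp only [sub_re, one_re]; linarith)
  congr w F F' c h := by
    rintro ⟨g, g1, g2, c', g3⟩
    refine ⟨g, g1, g2, max c c', fun s hs => ?_⟩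
    rw [max_lt_iff] at hs
    rw [g3 s hs.2, h s hs.1]

/-- Products of powers of the functions `Γ_ℝ (s - a)`, `a` an integer. -/
inductive GammaFactor : (ℂ → ℂ) → Prop where
  | base (a : ℤ) : GammaFactor (fun s => Gammaℝ (s - a))
  | one : GammaFactor 1
  | mul {f g : ℂ → ℂ} : GammaFactor f → GammaFactor g → GammaFactor (f * g)
  | inv {f : ℂ → ℂ} : GammaFactor f → GammaFactor f⁻¹

/-- Finite products of powers of the functions `1 - α p ^ (-s)`, `p` a prime. -/
inductive EulerFactor : (ℂ → ℂ) → Prop where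
  | base (p : Nat.Primes) (α : ℂ) : EulerFactor (fun s => 1 - α * ((p : ℕ) : ℂ) ^ (-s))
  | one : EulerFactor 1
  | mul {f g : ℂ → ℂ} : EulerFactor f → EulerFactor g → EulerFactor (f * g)
  | inv {f : ℂ → ℂ} : EulerFactor f → EulerFactor f⁻¹

theorem GammaFactor.meromorphic {f : ℂ → ℂ} (h : GammaFactor f) : Meromorphic f := by
  induction h with
  | base a =>
    intro s
    have h1 : AnalyticAt ℂ (fun s : ℂ => (Gammaℝ s)⁻¹) (s - a) :=
      (differentiable_Gammaℝ_inv.differentiableOn (s := Set.univ)).analyticAt Filter.univ_mem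
    have h2 : AnalyticAt ℂ (fun s : ℂ => (Gammaℝ (s - a))⁻¹) s :=
      h1.comp_of_eq (g := fun s : ℂ => (Gammaℝ s)⁻¹) (f := fun s => s - a) (by fun_prop) rfl
    have h3 := h2.meromorphicAt.inv
    refine h3.congr (Filter.Eventually.of_forall fun t => ?_)
    simp
  | one => exact fun s => MeromorphicAt.const 1 s
  | mul _ _ ih1 ih2 => exact fun s => (ih1 s).mul (ih2 s)
  | inv _ ih => exact fun s => (ih s).inv

theorem EulerFactor.meromorphic {f : ℂ → ℂ} (h : EulerFactor f) : Meromorphic f := by
  induction h with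
  | base p α =>
    intro s
    have hp : ((p : ℕ) : ℂ) ≠ 0 := by exact_mod_cast p.2.ne_zero
    have h1 : Differentiable ℂ (fun s : ℂ => 1 - α * ((p : ℕ) : ℂ) ^ (-s)) := by
      intro w
      apply DifferentiableAt.const_sub
      apply DifferentiableAt.const_mul
      exact DifferentiableAt.const_cpow (by fun_prop) (Or.inl hp)
    exact ((h1.differentiableOn (s := Set.univ)).analyticAt Filter.univ_mem).meromorphicAt
  | one => exact fun s => MeromorphicAt.const 1 s
  | mul _ _ ih1 ih2 => exact fun s => (ih1 s).mul (ih2 s)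
  | inv _ ih => exact fun s => (ih s).inv

theorem GammaFactor.comp_sub {f : ℂ → ℂ} (h : GammaFactor f) :
    GammaFactor (fun s => f (s - 1)) := by
  induction h with
  | base a =>
    have h1 := GammaFactor.base (a + 1)
    convert h1 using 2 with s
    push_cast
    ring_nf
  | one => exact GammaFactor.one
  | mul _ _ ih1 ih2 => exact ih1.mul ih2
  | inv _ ih => exact ih.inv

theorem GammaFactor.comp_add {f : ℂ → ℂ} (h : GammaFactor f) :
    GammaFactor (fun s => f (s + 1)) := by
  induction h with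
  | base a =>
    have h1 := GammaFactor.base (a - 1)
    convert h1 using 2 with s
    push_cast
    ring_nf
  | one => exact GammaFactor.one
  | mul _ _ ih1 ih2 => exact ih1.mul ih2
  | inv _ ih => exact ih.inv

theorem EulerFactor.comp_add {f : ℂ → ℂ} (h : EulerFactor f) (n : ℤ) :
    EulerFactor (fun s => f (s + n)) := by
  induction h with
  | base p α =>
    have hp : ((p : ℕ) : ℂ) ≠ 0 := by exact_mod_cast p.2.ne_zero
    have h1 := EulerFactor.base p (α * ((p : ℕ) : ℂ) ^ (-(n : ℂ)))
    convert h1 using 2 with s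
    show 1 - α * ((p : ℕ) : ℂ) ^ (-(s + (n : ℂ))) = _
    rw [neg_add, Complex.cpow_add _ _ hp]
    ring
  | one => exact EulerFactor.one
  | mul _ _ ih1 ih2 => exact ih1.mul ih2
  | inv _ ih => exact ih.inv

/-- The completed function. -/
noncomputable def completed (A : ℝ) (γ R g : ℂ → ℂ) (s : ℂ) : ℂ :=
  (A : ℂ) ^ (s / 2) * γ s * R s * g s

theorem completed_meromorphic {A : ℝ} (hA : 0 < A) {γ R g : ℂ → ℂ} (hγ : GammaFactor γ)
    (hR : EulerFactor R) (hg : Meromorphic g) : Meromorphic (completed A γ R g) := by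
  intro s
  have hA' : (A : ℂ) ≠ 0 := by exact_mod_cast hA.ne'
  have h1 : Differentiable ℂ (fun s : ℂ => (A : ℂ) ^ (s / 2)) := by
    intro w
    exact DifferentiableAt.const_cpow (by fun_prop) (Or.inl hA')
  have h2 := ((h1.differentiableOn (s := Set.univ)).analyticAt
    (Filter.univ_mem : Set.univ ∈ nhds s)).meromorphicAt
  exact ((h2.mul (hγ.meromorphic s)).mul (hR.meromorphic s)).mul (hg s)

theorem completed_mul {A A' : ℝ} (hA : 0 < A) (hA' : 0 < A') (γ R g γ' R' g' : ℂ → ℂ) :
    completed (A * A') (γ * γ') (R * R') (g * g') =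
      completed A γ R g * completed A' γ' R' g' := by
  funext s
  simp only [completed, Pi.mul_apply]
  push_cast
  rw [Complex.mul_cpow_ofReal_nonneg hA.le hA'.le]
  ring

theorem completed_inv {A : ℝ} (hA : 0 < A) (γ R g : ℂ → ℂ) :
    completed A⁻¹ γ⁻¹ R⁻¹ g⁻¹ = (completed A γ R g)⁻¹ := by
  funext s
  simp only [completed, Pi.inv_apply]
  have h1 : ((A⁻¹ : ℝ) : ℂ) ^ (s / 2) = ((A : ℂ) ^ (s / 2))⁻¹ := by
    push_cast
    rw [Complex.inv_cpow]
    rw [Complex.arg_ofReal_of_nonneg hA.le]
    exact Real.pi_ne_zero.symm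
  rw [h1]
  simp only [mul_inv]

theorem completed_shift {A : ℝ} (hA : 0 < A) (γ R g : ℂ → ℂ) (s a : ℂ) :
    completed A (fun s => γ (s + a)) (fun s => R (s + a)) (fun s => g (s + a)) s =
      (A : ℂ) ^ (-a / 2) * completed A γ R g (s + a) := by
  simp only [completed]
  have hA' : (A : ℂ) ≠ 0 := by exact_mod_cast hA.ne'
  have h1 : (A : ℂ) ^ (s / 2) = (A : ℂ) ^ (-a / 2) * (A : ℂ) ^ ((s + a) / 2) := by
    rw [← Complex.cpow_add _ _ hA']
    congr 1
    ring
  rw [h1]
  ring

/-- The functions with meromorphic continuation and functional equation in the sense of the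
problem: membership of `F` in the group of weight `w` means that `F` agrees in a right half plane
with a meromorphic function `g`, and that for some `A > 0`, some sign `ε`, some product `γ` of
powers of Gamma factors and some finite product `R` of powers of Euler factors the function
`Λ s = A ^ (s / 2) * γ s * R s * g s` satisfies `Λ s = ε * Λ (w + 1 - s)` outside a countable set
(hence as meromorphic functions) and has all its zeros and poles in the set `Z w`. -/
def hwFamily (Z : ℤ → Set ℂ) (hZ : ∀ w s, s + 1 ∈ Z (w + 2) ↔ s ∈ Z w) : Family where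
  mem w F := ∃ (g γ R : ℂ → ℂ) (A : ℝ) (ε : ℂ) (D : Set ℂ) (c : ℝ),
    Meromorphic g ∧ (∀ s : ℂ, c < s.re → g s = F s) ∧ GammaFactor γ ∧ EulerFactor R ∧ 0 < A ∧
    (ε = 1 ∨ ε = -1) ∧ D.Countable ∧
    (∀ s, s ∉ D → completed A γ R g s = ε * completed A γ R g ((w : ℂ) + 1 - s)) ∧
    ∀ s, meromorphicOrderAt (completed A γ R g) s ≠ 0 → s ∈ Z w
  one w := by
    have h1 : completed 1 1 1 1 = fun _ => 1 := by
      funext s
      simp [completed]
    refine ⟨1, 1, 1, 1, 1, ∅, 0, fun s => MeromorphicAt.const 1 s, fun s _ => rfl,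
      GammaFactor.one, EulerFactor.one, one_pos, Or.inl rfl, Set.countable_empty,
      fun s _ => ?_, fun s hs => ?_⟩
    · rw [h1, one_mul]
    · exfalso
      apply hs
      rw [h1]
      have h : AnalyticAt ℂ (fun _ : ℂ => (1 : ℂ)) s := analyticAt_const
      exact h.meromorphicNFAt.meromorphicOrderAt_eq_zero_iff.2 one_ne_zero
  mul w F F' := by
    rintro ⟨g, γ, R, A, ε, D, c, h1, h2, h3, h4, h5, h6, h7, h8, h9⟩
      ⟨g', γ', R', A', ε', D', c', h1', h2', h3', h4', h5', h6', h7', h8', h9'⟩
    refine ⟨g * g', γ * γ', R * R', A * A', ε * ε', D ∪ D', max c c',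
      fun s => (h1 s).mul (h1' s), fun s hs => ?_, h3.mul h3', h4.mul h4', mul_pos h5 h5',
      ?_, h7.union h7', fun s hs => ?_, fun s hs => ?_⟩
    · rw [max_lt_iff] at hs
      rw [Pi.mul_apply, Pi.mul_apply, h2 s hs.1, h2' s hs.2]
    · rcases h6 with rfl | rfl <;> rcases h6' with rfl | rfl <;> norm_num
    · rw [Set.mem_union, not_or] at hs
      rw [completed_mul h5 h5', Pi.mul_apply, Pi.mul_apply, h8 s hs.1, h8' s hs.2]
      ring
    · rw [completed_mul h5 h5', meromorphicOrderAt_mul (completed_meromorphic h5 h3 h4 h1 s)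
        (completed_meromorphic h5' h3' h4' h1' s)] at hs
      by_cases h0 : meromorphicOrderAt (completed A γ R g) s = 0
      · rw [h0, zero_add] at hs
        exact h9' s hs
      · exact h9 s h0
  inv w F := by
    rintro ⟨g, γ, R, A, ε, D, c, h1, h2, h3, h4, h5, h6, h7, h8, h9⟩
    refine ⟨g⁻¹, γ⁻¹, R⁻¹, A⁻¹, ε, D, c, fun s => (h1 s).inv, fun s hs => ?_, h3.inv, h4.inv,
      inv_pos.2 h5, h6, h7, fun s hs => ?_, fun s hs => h9 s ?_⟩
    · rw [Pi.inv_apply, Pi.inv_apply, h2 s hs]
    · rw [completed_inv h5, Pi.inv_apply, Pi.inv_apply, h8 s hs, mul_inv]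
      rcases h6 with rfl | rfl <;> norm_num
    · intro h0
      rw [completed_inv h5, meromorphicOrderAt_inv, h0, neg_zero] at hs
      exact hs rfl
  shift w F := by
    have key : ∀ (w w' : ℤ) (F F' : ℂ → ℂ) (n : ℤ), (w' : ℂ) = w - 2 * n →
        (∀ s : ℂ, s + (n : ℂ) ∈ Z w → s ∈ Z w') → (∀ s, F' s = F (s + n)) →
        (∃ (g γ R : ℂ → ℂ) (A : ℝ) (ε : ℂ) (D : Set ℂ) (c : ℝ),
          Meromorphic g ∧ (∀ s : ℂ, c < s.re → g s = F s) ∧ GammaFactor γ ∧ EulerFactor R ∧
          0 < A ∧ (ε = 1 ∨ ε = -1) ∧ D.Countable ∧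
          (∀ s, s ∉ D → completed A γ R g s = ε * completed A γ R g ((w : ℂ) + 1 - s)) ∧
          ∀ s, meromorphicOrderAt (completed A γ R g) s ≠ 0 → s ∈ Z w) →
        (∀ f, GammaFactor f → GammaFactor fun s => f (s + n)) →
        (∃ (g γ R : ℂ → ℂ) (A : ℝ) (ε : ℂ) (D : Set ℂ) (c : ℝ),
          Meromorphic g ∧ (∀ s : ℂ, c < s.re → g s = F' s) ∧ GammaFactor γ ∧ EulerFactor R ∧
          0 < A ∧ (ε = 1 ∨ ε = -1) ∧ D.Countable ∧
          (∀ s, s ∉ D → completed A γ R g s = ε * completed A γ R g ((w' : ℂ) + 1 - s)) ∧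
          ∀ s, meromorphicOrderAt (completed A γ R g) s ≠ 0 → s ∈ Z w') := by
      rintro w w' F F' n hw hZ' hF ⟨g, γ, R, A, ε, D, c, h1, h2, h3, h4, h5, h6, h7, h8, h9⟩ hG
      have hA' : (A : ℂ) ≠ 0 := by exact_mod_cast h5.ne'
      refine ⟨fun s => g (s + n), fun s => γ (s + n), fun s => R (s + n), A, ε,
        (fun s => s - (n : ℂ)) '' D, c - n, fun s => ?_, fun s hs => ?_, hG γ h3,
        h4.comp_add n, h5, h6, h7.image _, fun s hs => ?_, fun s hs => hZ' s (h9 _ ?_)⟩
      · exact (h1 (s + n)).comp_analyticAt (f := g) (g := fun s => s + (n : ℂ)) (by fun_prop)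
      · rw [hF]
        apply h2
        simp only [add_re, intCast_re]
        linarith
      · rw [completed_shift h5, completed_shift h5, h8 (s + n) (by
          intro hD
          apply hs
          exact ⟨s + n, hD, by ring⟩), hw]
        have e : ((w : ℂ) + 1 - (s + n)) = (w - 2 * n) + 1 - s + n := by ring
        rw [e]
        ring
      · intro h0
        apply hs
        have h10 : completed A (fun s => γ (s + n)) (fun s => R (s + n)) (fun s => g (s + n)) =
            (fun _ => (A : ℂ) ^ (-(n : ℂ) / 2)) * fun s => completed A γ R g (s + n) := by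
          funext s
          rw [completed_shift h5]
          rfl
        have h11 : (A : ℂ) ^ (-(n : ℂ) / 2) ≠ 0 := by
          rw [Ne, Complex.cpow_eq_zero_iff]
          exact fun h => hA' h.1
        have h12 : MeromorphicAt (fun s => completed A γ R g (s + n)) s :=
          (completed_meromorphic h5 h3 h4 h1 (s + n)).comp_analyticAt
            (f := completed A γ R g) (g := fun s => s + (n : ℂ)) (by fun_prop)
        have h13 : AnalyticAt ℂ (fun _ : ℂ => (A : ℂ) ^ (-(n : ℂ) / 2)) s := analyticAt_const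
        rw [h10, meromorphicOrderAt_mul h13.meromorphicAt h12,
          h13.meromorphicNFAt.meromorphicOrderAt_eq_zero_iff.2 h11, zero_add,
          meromorphicOrderAt_fun_comp_add_const_eq_meromorphicOrderAt, h0]
    constructor
    · intro h
      refine key (w + 2) w (fun s => F (s - 1)) F 1 (by push_cast; ring) (fun s hs => ?_)
        (fun s => ?_) h (fun f hf => ?_)
      · apply (hZ w s).1
        simpa using hs
      · simp
      · simpa using hf.comp_add
    · intro h
      refine key w (w + 2) F (fun s => F (s - 1)) (-1) (by push_cast; ring) (fun s hs => ?_)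
        (fun s => ?_) h (fun f hf => ?_)
      · have h1 := (hZ w (s - 1))
        rw [sub_add_cancel] at h1
        apply h1.2
        simpa [sub_eq_add_neg] using hs
      · simp [sub_eq_add_neg]
      · simpa [sub_eq_add_neg] using hf.comp_sub
  congr w F F' c h := by
    rintro ⟨g, γ, R, A, ε, D, c', h1, h2, h3⟩
    refine ⟨g, γ, R, A, ε, D, max c c', h1, fun s hs => ?_, h3⟩
    rw [max_lt_iff] at hs
    rw [h2 s hs.2, h s hs.1]

end Pool.Agent.H90.HW
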