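import Pool.Agent.H90.HW.Stmts

/-!
Two flattenings of a trilinear form have proportional numbers of zeros.
-/

namespace Pool.Agent.H90.HW

open Pool.Agent.H73.Zeta

theorem h90_flat : SFlat := by
  intro K _ _ n a b T
  have h1 := cnt_mult (K := K) (ι := Fin n) (W := (Fin a → K) × (Fin b → K))
    (fun i w => ∑ j, ∑ l, T i j l * w.1 j * w.2 l)
  have h2 := cnt_mult (K := K) (ι := Fin a) (W := (Fin n → K) × (Fin b → K))
    (fun j w => ∑ i, ∑ l, T i j l * w.1 i * w.2 l)
  let e : (Fin n → K) × ((Fin a → K) × (Fin b → K)) ≃ (Fin a → K) × ((Fin n → K) × (Fin b → K)) :=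
    { toFun := fun z => (z.2.1, (z.1, z.2.2))
      invFun := fun z => (z.2.1, (z.1, z.2.2))
      left_inv := fun _ => rfl
      right_inv := fun _ => rfl }
  have h3 : cnt (fun z : (Fin n → K) × ((Fin a → K) × (Fin b → K)) =>
      ∑ i, z.1 i * ∑ j, ∑ l, T i j l * z.2.1 j * z.2.2 l = 0) =
      cnt (fun z : (Fin a → K) × ((Fin n → K) × (Fin b → K)) =>
      ∑ j, z.1 j * ∑ i, ∑ l, T i j l * z.2.1 i * z.2.2 l = 0) := by
    rw [← cnt_equiv e]
    apply cnt_congr
    rintro ⟨x, y, z⟩
    have h4 : ∑ i, x i * ∑ j, ∑ l, T i j l * y j * z l =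
        ∑ j, y j * ∑ i, ∑ l, T i j l * x i * z l := by
      simp only [Finset.mul_sum]
      rw [Finset.sum_comm]
      apply Finset.sum_congr rfl
      intro j _
      apply Finset.sum_congr rfl
      intro i _
      apply Finset.sum_congr rfl
      intro l _
      ring
    show (∑ i, x i * ∑ j, ∑ l, T i j l * y j * z l = 0) ↔
      (∑ j, y j * ∑ i, ∑ l, T i j l * x i * z l = 0)
    rw [h4]
  rw [h3, h2] at h1
  have h5 : (Nat.card ((Fin a → K) × (Fin b → K)) : ℤ) =
      (Nat.card K : ℤ) ^ a * (Nat.card K : ℤ) ^ b := by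
    rw [Nat.card_prod]
    push_cast
    rw [card_fun, card_fun, Fintype.card_fin, Fintype.card_fin]
  have h6 : (Nat.card ((Fin n → K) × (Fin b → K)) : ℤ) =
      (Nat.card K : ℤ) ^ n * (Nat.card K : ℤ) ^ b := by
    rw [Nat.card_prod]
    push_cast
    rw [card_fun, card_fun, Fintype.card_fin, Fintype.card_fin]
  rw [h5, h6, Fintype.card_fin, Fintype.card_fin] at h1
  have h7 : ((Nat.card K : ℤ) - 1) ≠ 0 := by
    have h8 : 1 < Nat.card K := Finite.one_lt_card
    have : (1 : ℤ) < Nat.card K := by exact_mod_cast h8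
    linarith
  apply mul_left_cancel₀ h7
  linear_combination -h1

end Pool.Agent.H90.HW
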