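import Pool.Agent.H90.HW.Stmts

/-!
The Hadamard quotient of an exponential sum with integral values by `p ^ k - 1`.
-/

namespace Pool.Agent.H90.HW

open Complex Pool.Agent.H73.Zeta Polynomial Filter Topology

/-- Sums over a rescaled set of exponents. -/
theorem sum_mapDomain_mul (μ : ℂ →₀ ℤ) (a : ℂ) (k : ℕ) :
    ((Finsupp.mapDomain (fun α => a * α) μ).sum fun α c => (c : ℂ) * α ^ k) =
      a ^ k * μ.sum fun α c => (c : ℂ) * α ^ k := by
  rw [Finsupp.sum_mapDomain_index (by simp) (by intros; push_cast; ring), Finsupp.mul_sum]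
  apply Finsupp.sum_congr
  intro α _
  ring

theorem sum_mapDomain_mul' (μ : ℂ →₀ ℂ) (a : ℂ) (k : ℕ) :
    ((Finsupp.mapDomain (fun α => a * α) μ).sum fun α c => c * α ^ k) =
      a ^ k * μ.sum fun α c => c * α ^ k := by
  rw [Finsupp.sum_mapDomain_index (by simp) (by intros; ring), Finsupp.mul_sum]
  apply Finsupp.sum_congr
  intro α _
  ring

theorem sum_add_exp (μ ν : ℂ →₀ ℤ) (k : ℕ) :
    ((μ + ν).sum fun α c => (c : ℂ) * α ^ k) =
      (μ.sum fun α c => (c : ℂ) * α ^ k) + ν.sum fun α c => (c : ℂ) * α ^ k := by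
  rw [Finsupp.sum_add_index' (by simp) (by intros; push_cast; ring)]

theorem sum_neg_exp (μ : ℂ →₀ ℤ) (k : ℕ) :
    ((-μ).sum fun α c => (c : ℂ) * α ^ k) = - μ.sum fun α c => (c : ℂ) * α ^ k := by
  rw [Finsupp.sum_neg_index (by simp)]
  simp [Finsupp.sum, Finset.sum_neg_distrib]

theorem mapDomain_mul_apply {M : Type*} [AddCommMonoid M] (μ : ℂ →₀ M) {a : ℂ} (ha : a ≠ 0)
    (α : ℂ) : (Finsupp.mapDomain (fun α => a * α) μ) α = μ (α / a) := by
  have h : Function.Injective (fun α : ℂ => a * α) := mul_right_injective₀ ha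
  have e : α = (fun α : ℂ => a * α) (α / a) := by
    simp only
    field_simp
  conv_lhs => rw [e]
  rw [Finsupp.mapDomain_apply h]

/-- An integral sequence which satisfies asymptotically a recurrence with rational coefficients
satisfies it eventually. -/
theorem eventually_rec (Q : ℚ[X]) (N : ℕ → ℤ)
    (h : Tendsto (fun k => ‖Q.sum fun i a => (a : ℂ) * (N (k + i) : ℂ)‖) atTop (𝓝 0)) :
    ∃ k₀, 1 ≤ k₀ ∧ ∀ k, k₀ ≤ k → (Q.sum fun i a => (a : ℂ) * (N (k + i) : ℂ)) = 0 := by
  -- a common denominator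
  let M : ℕ := ∏ i ∈ Q.support, (Q.coeff i).den
  have hM : 0 < M := Finset.prod_pos fun i _ => (Q.coeff i).den_pos
  have hMi : ∀ i ∈ Q.support, ∃ z : ℤ, (M : ℂ) * ((Q.coeff i : ℚ) : ℂ) = (z : ℂ) := by
    intro i hi
    have h1 : (M : ℂ) = ((∏ j ∈ Q.support.erase i, (Q.coeff j).den : ℕ) : ℂ) *
        (((Q.coeff i).den : ℕ) : ℂ) := by
      rw [← Nat.cast_mul]
      congr 1
      rw [mul_comm]
      exact (Finset.mul_prod_erase _ _ hi).symm
    refine ⟨((∏ j ∈ Q.support.erase i, (Q.coeff j).den : ℕ) : ℤ) * (Q.coeff i).num, ?_⟩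
    have h2 : (((Q.coeff i).den : ℕ) : ℂ) * ((Q.coeff i : ℚ) : ℂ) = ((Q.coeff i).num : ℂ) := by
      have h3 : (((Q.coeff i).den : ℚ)) * (Q.coeff i) = ((Q.coeff i).num : ℚ) := by
        rw [mul_comm]
        exact Rat.mul_den_eq_num _
      exact_mod_cast congrArg (fun x : ℚ => (x : ℂ)) h3
    rw [h1, mul_assoc, h2]
    push_cast
    ring
  have hy : ∀ k, ∃ z : ℤ, (M : ℂ) * (Q.sum fun i a => (a : ℂ) * (N (k + i) : ℂ)) = (z : ℂ) := by
    intro k
    choose! z hz using hMi
    refine ⟨∑ i ∈ Q.support, z i * N (k + i), ?_⟩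
    rw [Polynomial.sum_def, Finset.mul_sum]
    push_cast
    apply Finset.sum_congr rfl
    intro i hi
    rw [← mul_assoc, hz i hi]
  choose y hy using hy
  have h1 : ∀ᶠ k in atTop, ‖Q.sum fun i a => (a : ℂ) * (N (k + i) : ℂ)‖ < 1 / M := by
    have : (0 : ℝ) < 1 / M := by positivity
    exact h.eventually_lt_const this
  obtain ⟨k₁, hk₁⟩ := eventually_atTop.1 h1
  refine ⟨max k₁ 1, le_max_right _ _, fun k hk => ?_⟩
  have h2 := hk₁ k (le_trans (le_max_left _ _) hk)
  have hM' : (0 : ℝ) < M := by exact_mod_cast hM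
  have h3 : ‖(y k : ℂ)‖ < 1 := by
    rw [← hy k, norm_mul, Complex.norm_natCast]
    rwa [lt_div_iff₀ hM', mul_comm] at h2
  have h4 : y k = 0 := by
    rw [Complex.norm_intCast] at h3
    have : |y k| < 1 := by exact_mod_cast h3
    exact Int.abs_lt_one_iff.1 this
  have h5 := hy k
  rw [h4, Int.cast_zero, mul_eq_zero] at h5
  rcases h5 with h5 | h5
  · exact absurd h5 (by exact_mod_cast hM.ne')
  · exact h5

theorem had (hI : SIndep) (hR : SRat) (hS : SRec) : SHad := by
  intro p hp N μ hμ0 h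
  have hp0 : (p : ℂ) ≠ 0 := by
    have : p ≠ 0 := by omega
    exact_mod_cast this
  have hp2 : (2 : ℝ) ≤ p := by exact_mod_cast hp
  -- a power of `p` larger than twice all exponents
  obtain ⟨J, hJ⟩ : ∃ J : ℕ, ∀ α ∈ μ.support, 2 * ‖α‖ ≤ (p : ℝ) ^ J := by
    obtain ⟨J, hJ⟩ := pow_unbounded_of_one_lt (∑ α ∈ μ.support, 2 * ‖α‖)
      (show (1 : ℝ) < p by linarith)
    refine ⟨J, fun α hα => le_trans ?_ hJ.le⟩
    exact Finset.single_le_sum (f := fun α : ℂ => 2 * ‖α‖) (fun _ _ => by positivity) hα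
  set B : ℝ := ∑ α ∈ μ.support, |(μ α : ℝ)| with hB
  -- size of `N`
  have hpk : ∀ k, k ≠ 0 → (1 : ℝ) ≤ ‖((p : ℂ) ^ k - 1)‖ := by
    intro k hk
    have h1 : (2 : ℝ) ≤ (p : ℝ) ^ k := by
      calc (2 : ℝ) = 2 ^ 1 := by norm_num
        _ ≤ 2 ^ k := pow_le_pow_right₀ (by norm_num) (Nat.one_le_iff_ne_zero.2 hk)
        _ ≤ (p : ℝ) ^ k := pow_le_pow_left₀ (by norm_num) hp2 k
    have h2 : ((p : ℂ) ^ k - 1) = (((p : ℝ) ^ k - 1 : ℝ) : ℂ) := by push_cast; ring
    rw [h2, Complex.norm_real, Real.norm_eq_abs, abs_of_nonneg (by linarith)]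
    linarith
  have hpk0 : ∀ k, k ≠ 0 → ((p : ℂ) ^ k - 1) ≠ 0 := by
    intro k hk h0
    have := hpk k hk
    rw [h0, norm_zero] at this
    linarith
  have hNs : ∀ k, k ≠ 0 → ‖(N k : ℂ)‖ ≤ B * ((p : ℝ) ^ J / 2) ^ k := by
    intro k hk
    calc ‖(N k : ℂ)‖ ≤ ‖((p : ℂ) ^ k - 1)‖ * ‖(N k : ℂ)‖ :=
          le_mul_of_one_le_left (norm_nonneg _) (hpk k hk)
      _ = ‖μ.sum fun α c => (c : ℂ) * α ^ k‖ := by rw [← norm_mul, h k hk]
      _ ≤ ∑ α ∈ μ.support, ‖(μ α : ℂ) * α ^ k‖ := norm_sum_le _ _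
      _ ≤ ∑ α ∈ μ.support, |(μ α : ℝ)| * ((p : ℝ) ^ J / 2) ^ k := by
          apply Finset.sum_le_sum
          intro α hα
          rw [norm_mul, norm_pow, Complex.norm_intCast]
          apply mul_le_mul_of_nonneg_left _ (abs_nonneg _)
          apply pow_le_pow_left₀ (norm_nonneg _)
          have := hJ α hα
          linarith
      _ = _ := by rw [hB, Finset.sum_mul]
  -- the finite geometric sum
  set c : ℂ →₀ ℤ := ∑ j ∈ Finset.range J,
    Finsupp.mapDomain (fun α => ((p : ℂ) ^ (j + 1))⁻¹ * α) μ with hc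
  have hc0 : c 0 = 0 := by
    rw [hc, Finsupp.finsetSum_apply]
    apply Finset.sum_eq_zero
    intro j _
    rw [mapDomain_mul_apply _ (inv_ne_zero (pow_ne_zero _ hp0)), zero_div, hμ0]
  have hcs : ∀ k, k ≠ 0 → (c.sum fun α n => (n : ℂ) * α ^ k) =
      (N k : ℂ) * (1 - ((p : ℂ) ^ (J * k))⁻¹) := by
    intro k hk
    have h1 : ∀ J' : ℕ, ((∑ j ∈ Finset.range J',
        Finsupp.mapDomain (fun α => ((p : ℂ) ^ (j + 1))⁻¹ * α) μ).sum
          fun α n => (n : ℂ) * α ^ k) = (N k : ℂ) * (1 - ((p : ℂ) ^ (J' * k))⁻¹) := by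
      intro J'
      induction J' with
      | zero => simp
      | succ J' ih =>
        rw [Finset.sum_range_succ, sum_add_exp, ih, sum_mapDomain_mul, ← h k hk]
        have e1 : ((p : ℂ) ^ ((J' + 1) * k)) = (p : ℂ) ^ (J' * k) * (p : ℂ) ^ k := by
          rw [← pow_add]
          congr 1
          ring
        have e2 : (((p : ℂ) ^ (J' + 1))⁻¹) ^ k = ((p : ℂ) ^ ((J' + 1) * k))⁻¹ := by
          rw [inv_pow, ← pow_mul]
        rw [e2, e1]
        have h3 : (p : ℂ) ^ k ≠ 0 := pow_ne_zero _ hp0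
        have h4 : (p : ℂ) ^ (J' * k) ≠ 0 := pow_ne_zero _ hp0
        field_simp
        ring
    exact h1 J
  obtain ⟨Q, hQ⟩ := hR c (fun k => (N k : ℚ) * (1 - ((p : ℚ) ^ (J * k))⁻¹)) hc0 (by
    intro k hk
    rw [hcs k hk]
    push_cast
    ring)
  -- the recurrence for the finite sum
  have hQc : ∀ k, k ≠ 0 → (Q.sum fun i a => (a : ℂ) *
      (c.sum fun α n => (n : ℂ) * α ^ (k + i))) = 0 := by
    intro k _
    have h1 : (Q.sum fun i a => (a : ℂ) * (c.sum fun α n => (n : ℂ) * α ^ (k + i))) =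
        c.sum fun α n => (n : ℂ) * α ^ k * (Q.map (algebraMap ℚ ℂ)).eval α := by
      rw [Polynomial.sum_def]
      simp only [Finsupp.sum]
      simp only [Finset.mul_sum]
      rw [Finset.sum_comm]
      apply Finset.sum_congr rfl
      intro α _
      rw [Polynomial.eval_map, Polynomial.eval₂_eq_sum, Polynomial.sum_def, Finset.mul_sum]
      apply Finset.sum_congr rfl
      intro i _
      simp only [eq_ratCast]
      ring
    rw [h1]
    apply Finset.sum_eq_zero
    intro α hα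
    have h2 : (Q.map (algebraMap ℚ ℂ)).eval α = 0 := by
      rw [hQ, Polynomial.eval_prod]
      exact Finset.prod_eq_zero hα (by simp)
    simp only
    rw [h2, mul_zero]
  -- the asymptotic recurrence for `N`
  have hlim : Tendsto (fun k => ‖Q.sum fun i a => (a : ℂ) * (N (k + i) : ℂ)‖) atTop (𝓝 0) := by
    have h1 : ∀ i : ℕ, Tendsto (fun k => ‖(N (k + i) : ℂ) * ((p : ℂ) ^ (J * (k + i)))⁻¹‖) atTop
        (𝓝 0) := by
      intro i
      have h2 : Tendsto (fun k : ℕ => B * ((1 : ℝ) / 2) ^ (k + i)) atTop (𝓝 0) := by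
        have h3 := (tendsto_pow_atTop_nhds_zero_of_lt_one (r := (1 : ℝ) / 2) (by norm_num)
          (by norm_num)).comp (tendsto_add_atTop_nat i)
        have h4 := h3.const_mul B
        rw [mul_zero] at h4
        exact h4
      apply squeeze_zero' (Eventually.of_forall fun _ => norm_nonneg _) _ h2
      filter_upwards [eventually_ge_atTop 1] with k hk
      have h5 := hNs (k + i) (by omega)
      rw [norm_mul, norm_inv, norm_pow, Complex.norm_natCast]
      have h6 : (0 : ℝ) < (p : ℝ) ^ (J * (k + i)) := by positivity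
      rw [← div_eq_mul_inv, div_le_iff₀ h6]
      refine le_trans h5 (le_of_eq ?_)
      rw [div_pow, div_pow, one_pow, ← pow_mul]
      ring
    have h2 : ∀ k, k ≠ 0 → (Q.sum fun i a => (a : ℂ) * (N (k + i) : ℂ)) =
        ∑ i ∈ Q.support, (Q.coeff i : ℂ) * ((N (k + i) : ℂ) * ((p : ℂ) ^ (J * (k + i)))⁻¹) := by
      intro k hk
      have h3 := hQc k hk
      rw [Polynomial.sum_def] at h3 ⊢
      rw [← sub_eq_zero, ← Finset.sum_sub_distrib, ← h3]
      apply Finset.sum_congr rfl
      intro i _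
      rw [hcs (k + i) (by omega)]
      ring
    have h3 : Tendsto (fun k => ∑ i ∈ Q.support, ‖(Q.coeff i : ℂ)‖ *
        ‖(N (k + i) : ℂ) * ((p : ℂ) ^ (J * (k + i)))⁻¹‖) atTop (𝓝 0) := by
      have h4 : (0 : ℝ) = ∑ i ∈ Q.support, ‖(Q.coeff i : ℂ)‖ * 0 := by simp
      rw [h4]
      exact tendsto_finsetSum _ fun i _ => (h1 i).const_mul _
    apply squeeze_zero' (Eventually.of_forall fun _ => norm_nonneg _) _ h3
    filter_upwards [eventually_ge_atTop 1] with k hk
    rw [h2 k (by omega)]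
    refine le_trans (norm_sum_le _ _) (le_of_eq ?_)
    simp only [norm_mul]
  obtain ⟨k₀, hk₀1, hk₀⟩ := eventually_rec Q N hlim
  -- `N` is eventually an exponential sum
  obtain ⟨n, hn⟩ := hS c.support (fun k => (N (k + k₀) : ℂ)) (by
    intro k
    rw [← hQ, Polynomial.sum_def]
    have h1 := hk₀ (k + k₀) (by omega)
    rw [Polynomial.sum_def] at h1
    rw [Polynomial.support_map_of_injective _ (algebraMap ℚ ℂ).injective, ← h1]
    apply Finset.sum_congr rfl
    intro i _
    rw [Polynomial.coeff_map, eq_ratCast]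
    congr 3
    omega)
  have hcne : ∀ α ∈ c.support, α ≠ 0 := by
    rintro α hα rfl
    exact (Finsupp.mem_support_iff.1 hα) hc0
  let ν' : ℂ →₀ ℂ := Finsupp.onFinset c.support
    (fun α => if α ∈ c.support then n α / α ^ k₀ else 0) (by
      intro α hα
      by_contra hcon
      exact hα (if_neg hcon))
  have hν'0 : ν' 0 = 0 := by
    simp only [ν', Finsupp.onFinset_apply]
    rw [if_neg]
    intro h0
    exact hcne 0 h0 rfl
  have hν's : ∀ k, k₀ ≤ k → (N k : ℂ) = ν'.sum fun α a => a * α ^ k := by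
    intro k hk
    have h1 := hn (k - k₀)
    rw [Nat.sub_add_cancel hk] at h1
    rw [h1, Finsupp.sum_of_support_subset (s := c.support) _ Finsupp.support_onFinset_subset _
      (by simp)]
    apply Finset.sum_congr rfl
    intro α hα
    rw [show ν' α = if α ∈ c.support then n α / α ^ k₀ else 0 from rfl, if_pos hα]
    have h2 := hcne α hα
    have h3 : α ^ k = α ^ (k - k₀) * α ^ k₀ := by
      rw [← pow_add, Nat.sub_add_cancel hk]
    rw [h3]
    field_simp
  -- the relation
  have hrel : ∀ α, ν' (α / p) - ν' α = (μ α : ℂ) := by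
    intro α
    by_cases hα : α = 0
    · subst hα
      rw [zero_div, sub_self, hμ0, Int.cast_zero]
    · let μ' : ℂ →₀ ℂ := μ.mapRange (fun z : ℤ => (z : ℂ)) (by simp)
      have h1 := hI (Finsupp.mapDomain (fun α => (p : ℂ) * α) ν' - ν' - μ') k₀ (by
        intro k hk
        rw [Finsupp.sum_sub_index (by intros; ring), Finsupp.sum_sub_index (by intros; ring),
          sum_mapDomain_mul', ← hν's k hk]
        have h2 : (μ'.sum fun α a => a * α ^ k) = μ.sum fun α c => (c : ℂ) * α ^ k := by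
          rw [Finsupp.sum_mapRange_index (by simp)]
        rw [h2, ← h k (by omega)]
        ring) α hα
      rw [Finsupp.sub_apply, Finsupp.sub_apply, mapDomain_mul_apply _ hp0] at h1
      have h2 : μ' α = (μ α : ℂ) := Finsupp.mapRange_apply ..
      rw [h2] at h1
      exact sub_eq_zero.1 h1
  -- integrality
  have hint : ∀ α, ∃ z : ℤ, ν' α = (z : ℂ) := by
    intro α
    by_cases hα : α = 0
    · exact ⟨0, by rw [hα, hν'0, Int.cast_zero]⟩
    · have h1 : ∀ j : ℕ, (∃ z : ℤ, ν' (α / (p : ℂ) ^ j) = (z : ℂ)) → ∃ z : ℤ, ν' α = (z : ℂ) := by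
        intro j
        induction j with
        | zero => simp
        | succ j ih =>
          rintro ⟨z, hz⟩
          apply ih
          refine ⟨z - μ (α / (p : ℂ) ^ j), ?_⟩
          have h2 := hrel (α / (p : ℂ) ^ j)
          rw [div_div, ← pow_succ, hz] at h2
          push_cast
          rw [← h2]
          ring
      have hinj : Function.Injective (fun j : ℕ => α / (p : ℂ) ^ j) := by
        intro i j hij
        simp only at hij
        have h2 : (p : ℂ) ^ i = (p : ℂ) ^ j := by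
          have hi : (p : ℂ) ^ i ≠ 0 := pow_ne_zero _ hp0
          have hj : (p : ℂ) ^ j ≠ 0 := pow_ne_zero _ hp0
          rw [div_eq_div_iff hi hj] at hij
          exact (mul_left_cancel₀ hα hij).symm
        have h3 : (p : ℕ) ^ i = p ^ j := by exact_mod_cast h2
        exact Nat.pow_right_injective hp h3
      obtain ⟨j, hj⟩ : ∃ j : ℕ, α / (p : ℂ) ^ j ∉ ν'.support := by
        by_contra hcon
        push Not at hcon
        exact (Set.infinite_range_of_injective hinj) (ν'.support.finite_toSet.subset (by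
          rintro _ ⟨j, rfl⟩
          exact hcon j))
      apply h1 j
      exact ⟨0, by rw [Finsupp.notMem_support_iff.1 hj, Int.cast_zero]⟩
  choose z hz using hint
  let ν : ℂ →₀ ℤ := Finsupp.onFinset ν'.support z (by
    intro α hα
    rw [Finsupp.mem_support_iff, hz α]
    exact_mod_cast hα)
  have hrel' : ∀ α, ν (α / p) - ν α = μ α := by
    intro α
    have h1 := hrel α
    rw [hz, hz] at h1
    simp only [ν, Finsupp.onFinset_apply]
    exact_mod_cast h1
  refine ⟨ν, ?_, fun k hk => ?_, hrel'⟩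
  · have h1 := hz 0
    rw [hν'0] at h1
    simp only [ν, Finsupp.onFinset_apply]
    exact_mod_cast h1.symm
  · have h1 : μ = Finsupp.mapDomain (fun α => (p : ℂ) * α) ν + -ν := by
      ext α
      rw [Finsupp.add_apply, mapDomain_mul_apply _ hp0, Finsupp.neg_apply, ← hrel' α]
      ring
    have h2 := h k hk
    rw [h1, sum_add_exp, sum_neg_exp, sum_mapDomain_mul] at h2
    apply mul_left_cancel₀ (hpk0 k hk)
    rw [h2]
    ring

end Pool.Agent.H90.HW
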