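import Pool.Agent.H90.HW.ClosedParts
import Pool.Agent.H90.HW.Families
import Pool.Agent.H90.HW.FlatB
import Pool.Agent.H90.HW.ABb
import Pool.Agent.H83.HW.Add
import Pool.Agent.H83.HW.Rat
import Pool.Agent.H83.HW.Indep
import Pool.Agent.H83.HW.Mult
import Pool.Agent.H20.HW.Rec
import Pool.Agent.H20.HW.Size
import Pool.Agent.H5.HW.Shift
import Pool.Agent.H10.HW.Ker
import Pool.Agent.H10.HW.Minor
import Pool.Agent.H86.HW.Cone
import Pool.Agent.H86.HW.BA
import Pool.Agent.H87.HW.Gadget
import Pool.Agent.H87.HW.Affine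

/-!
The equivalence of closed subschemes of `ℙ^m` and linear sections of Segre varieties.
-/

namespace Pool.Agent.H90.HW

open Pool.Agent.H73.Zeta

theorem closed_parts : SClosed :=
  closedParts (had indep (rat indep) rec) size (add mult) shift

theorem projIn_iff {C : Counts → Prop} (hC : Closed C) (m : ℕ) : ProjIn C m ↔ SegreIn C m :=
  ⟨h90_ab cone h90_flat minor ker C hC m, bA (affine gadget cone h90_flat dehom) C hC m⟩

theorem partsIn_iff_partsIn (G : Family) (m : ℕ) :
    ProjIn (PartsIn G) m ↔ SegreIn (PartsIn G) m :=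
  projIn_iff (closed_parts G) m

end Pool.Agent.H90.HW
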