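import Pool.Agent.H90.HW.Stmts2

/-!
Projective schemes of dimension at most `d` from affine ones.
-/

namespace Pool.Agent.H90.HW

open Pool.Agent.H73.Zeta MvPolynomial
open scoped LinearAlgebra.Projectivization

/-- The hyperplane `v j = 1`. -/
theorem h90_cnt_insertNth {K : Type} [Field K] {n : ℕ} (j : Fin (n + 1))
    (Q : (Fin (n + 1) → K) → Prop) :
    cnt (fun v : Fin (n + 1) → K => v j = 1 ∧ Q v) =
      cnt (fun x : Fin n → K => Q (j.insertNth (1 : K) x)) := by
  have key : ∀ v : Fin (n + 1) → K, v j = 1 →
      (j.insertNth (1 : K) (j.removeNth v) : Fin (n + 1) → K) = v := by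
    intro v hv
    rw [← hv]
    exact Fin.insertNth_self_removeNth j v
  unfold cnt
  congr 1
  apply Nat.card_congr
  exact
    { toFun := fun v => ⟨j.removeNth v.1, by
        show Q (j.insertNth (1 : K) (j.removeNth v.1))
        rw [key v.1 v.2.1]
        exact v.2.2⟩
      invFun := fun x => ⟨j.insertNth (1 : K) x.1, by simp, x.2⟩
      left_inv := fun v => by
        apply Subtype.ext
        exact key v.1 v.2.1
      right_inv := fun x => by
        apply Subtype.ext
        show j.removeNth (j.insertNth (1 : K) x.1 : Fin (n + 1) → K) = x.1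
        simp }

theorem h90_insertNth_zero {K : Type} [Field K] {n : ℕ} (j : Fin (n + 1)) (x : Fin n → K) :
    (∀ i, Fin.castSucc i < j → x i = 0) ↔
      ∀ i, i < j → (j.insertNth (1 : K) x : Fin (n + 1) → K) i = 0 := by
  constructor
  · intro h i hi
    obtain ⟨i', rfl⟩ : ∃ i' : Fin n, i = Fin.castSucc i' := by
      have : i ≠ Fin.last n := fun h => by
        rw [h] at hi
        exact absurd hi (not_lt.2 (Fin.le_last j))
      exact ⟨i.castPred this, by simp⟩
    have h7 : j.succAbove i' = Fin.castSucc i' := Fin.succAbove_of_castSucc_lt _ _ hi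
    rw [← h7]
    simp [h i' hi]
  · intro h i hi
    have h6 := h (Fin.castSucc i) hi
    have h7 : j.succAbove i = Fin.castSucc i := Fin.succAbove_of_castSucc_lt _ _ hi
    rw [← h7] at h6
    simpa using h6

theorem projDim (hD : SDim) (hE : SEvClosed) : SProjDim := by
  classical
  intro C hC d hA n F hF hdim
  have hEv := hE C hC
  let G : Fin (n + 1) → Finset (MvPolynomial (Fin (n + 1)) ℤ) := fun j =>
    F ∪ insert (X j - 1) ((Finset.univ.filter (fun i : Fin (n + 1) => i < j)).image X)
  have hG : ∀ j, Ev C (affCount (G j)) := by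
    intro j
    apply hD C hC d hA
    have hle : idealQ F ⊔ Ideal.span {X j - 1} ≤ idealQ (G j) := by
      apply sup_le
      · apply Ideal.span_mono
        apply Set.image_mono
        intro f hf
        exact Finset.mem_coe.2 (Finset.mem_union_left _ hf)
      · rw [Ideal.span_singleton_le_iff_mem]
        have h1 : (X j - 1 : MvPolynomial (Fin (n + 1)) ℚ) =
            MvPolynomial.map (Int.castRingHom ℚ) (X j - 1) := by simp
        rw [h1]
        apply Ideal.subset_span
        apply Set.mem_image_of_mem
        exact Finset.mem_coe.2 (Finset.mem_union_right _ (Finset.mem_insert_self _ _))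
    exact (ringKrullDim_le_of_surjective (Ideal.Quotient.factor hle)
      (Ideal.Quotient.factor_surjective hle)).trans (hdim j)
  have hsum : Ev C (fun p k => ∑ j : Fin (n + 1), affCount (G j) p k) :=
    h86_closed_sum hEv (hG 0) Finset.univ (fun j => affCount (G j)) (fun j => hG j)
  refine hEv.congr (fun p k hk => ?_) hsum
  have := Fintype.ofFinite (FF p k)
  have hq : ((p : ℤ) ^ k - 1) ≠ 0 := by
    have h2 : (1 : ℤ) < (p : ℤ) ^ k := one_lt_pow₀ (by exact_mod_cast p.2.one_lt) hk
    omega
  apply mul_left_cancel₀ hq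
  rw [proj_formula hF 1 p hk, if_neg (h90_not_dvd_one p), h86_first n _ (zeros_smul hF),
    card_FF p hk]
  congr 1
  apply Finset.sum_congr rfl
  intro j _
  unfold affCount
  have h3 : cnt (fun x : Fin n → FF p k => (∀ i, Fin.castSucc i < j → x i = 0) ∧
      ∀ f ∈ F, aeval (j.insertNth (1 : FF p k) x : Fin (n + 1) → FF p k) f = 0) =
      cnt (fun x : Fin n → FF p k => (∀ i, i < j →
        (j.insertNth (1 : FF p k) x : Fin (n + 1) → FF p k) i = 0) ∧
      ∀ f ∈ F, aeval (j.insertNth (1 : FF p k) x : Fin (n + 1) → FF p k) f = 0) :=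
    cnt_congr (fun x => and_congr_left' (h90_insertNth_zero j x))
  rw [h3, ← h90_cnt_insertNth j (fun v : Fin (n + 1) → FF p k => (∀ i, i < j → v i = 0) ∧
    ∀ f ∈ F, aeval v f = 0)]
  apply cnt_congr
  intro v
  simp only [G, Finset.mem_union, Finset.mem_insert, Finset.mem_image, Finset.mem_filter,
    Finset.mem_univ, true_and]
  constructor
  · intro h
    refine ⟨?_, fun i hi => ?_, fun f hf => h f (Or.inl hf)⟩
    · have := h (X j - 1) (Or.inr (Or.inl rfl))
      rw [map_sub, aeval_X, map_one, sub_eq_zero] at this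
      exact this
    · have := h (X i) (Or.inr (Or.inr ⟨i, hi, rfl⟩))
      rwa [aeval_X] at this
  · rintro ⟨h1, h2, h3⟩ f (hf | rfl | ⟨i, hi, rfl⟩)
    · exact h3 f hf
    · rw [map_sub, aeval_X, map_one, h1, sub_self]
    · rw [aeval_X]
      exact h2 i hi

end Pool.Agent.H90.HW
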