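import Pool.Agent.H90.HW.Dim2
import Pool.Agent.H90.HW.Det
import Pool.Agent.H90.HW.Birational
import Pool.Agent.H59.HW.EvClosed
import Pool.Agent.H24.HW.Noether
import Pool.Agent.H24.HW.Inc
import Pool.Agent.H95.HW.Homog
import Pool.Agent.H95.HW.Conv
import Pool.Agent.H78.HW.Prime
import Pool.Agent.H14.HW.Dim
import Pool.Agent.H90.HW.ProjDim

/-!
The equivalence for closed subschemes of dimension at most `d` of projective spaces.
-/

namespace Pool.Agent.H90.HW

open Pool.Agent.H73.Zeta

theorem projDim_all : SProjDim :=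
  projDim (dim (prime (birational noether) inc homog evClosed) inc evClosed) evClosed

theorem conv_all : SConv := conv evClosed

variable {C : Counts → Prop} (hC : Closed C) (d : ℕ)

include hC

theorem dimIn_iff_segreIn : DimIn (Ev C) d ↔ SegreIn (Ev C) (d + 1) :=
  dimIn_iff evClosed projDim_all conv_all hC d

theorem dimIn_iff_cubicIn : DimIn (Ev C) d ↔ CubicIn (Ev C) (d + 1) :=
  (dimIn_iff_segreIn hC d).trans (cubicIn_iff (evClosed C hC) (d + 1))

theorem dimIn_iff_detIn : DimIn (Ev C) d ↔ DetIn (Ev C) (d + 1) :=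
  ⟨fun h => detIn_of_projIn (evClosed C hC) (conv_all C hC d h),
    fun h => projDim_all C hC d (affIn_of_detIn (evClosed C hC) h)⟩

end Pool.Agent.H90.HW
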