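import Pool.Agent.H90.HW.Defs
import Pool.Agent.H73.ZetaProj

/-!
Statements of the modules of the weight by weight reduction.
-/

namespace Pool.Agent.H90.HW

open Complex Pool.Agent.H73.Zeta Polynomial
open scoped LinearAlgebra.Projectivization

/-! ### Exponential sums -/

/-- Exponential sums are linearly independent. -/
def SIndep : Prop := ∀ (c : ℂ →₀ ℂ) (k₀ : ℕ),
  (∀ k, k₀ ≤ k → (c.sum fun α a => a * α ^ k) = 0) → ∀ α, α ≠ 0 → c α = 0

/-- If an exponential sum has rational values, then the monic polynomial with its set of exponents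
as simple roots has rational coefficients.  (Use a `ℚ`-linear map `ℂ → ℚ` with `1 ↦ 1`.) -/
def SRat : Prop := ∀ (c : ℂ →₀ ℤ) (b : ℕ → ℚ), c 0 = 0 →
  (∀ k, k ≠ 0 → (c.sum fun α n => (n : ℂ) * α ^ k) = (b k : ℂ)) →
  ∃ Q : ℚ[X], Q.map (algebraMap ℚ ℂ) = ∏ α ∈ c.support, (X - C α)

/-- Solutions of a linear recurrence with simple characteristic roots are exponential sums. -/
def SRec : Prop := ∀ (S : Finset ℂ) (x : ℕ → ℂ),
  (∀ k, ((∏ α ∈ S, (X - C α) : ℂ[X]).sum fun i a => a * x (k + i)) = 0) →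
  ∃ n : ℂ → ℂ, ∀ k, x k = ∑ α ∈ S, n α * α ^ k

/-- The Hadamard quotient by `p ^ k - 1`. -/
def SHad : Prop := ∀ (p : ℕ) (_ : 2 ≤ p) (N : ℕ → ℤ) (μ : ℂ →₀ ℤ) (_ : μ 0 = 0),
  (∀ k, k ≠ 0 → (((p : ℂ) ^ k - 1) * (N k : ℂ)) = μ.sum fun α c => (c : ℂ) * α ^ k) →
  ∃ ν : ℂ →₀ ℤ, ν 0 = 0 ∧
    (∀ k, k ≠ 0 → (N k : ℂ) = ν.sum fun α c => (c : ℂ) * α ^ k) ∧
    ∀ α, ν (α / p) - ν α = μ α

/-- Sizes and weights in the relation `ν (α / p) - ν α = μ α`. -/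
def SSize : Prop := ∀ (p : ℕ) (_ : 2 ≤ p) (B : ℕ) (μ ν : ℂ →₀ ℤ),
  (∀ α, μ α ≠ 0 → ∃ w : ℤ, |w| ≤ B ∧ ‖α‖ = (p : ℝ) ^ ((w : ℝ) / 2)) →
  ((μ.sum fun _ c => |c|) ≤ B) → (∀ α, ν (α / p) - ν α = μ α) → ν 0 = 0 →
  (∀ α, ν α ≠ 0 → ∃ w : ℤ, |w| ≤ B ∧ ‖α‖ = (p : ℝ) ^ ((w : ℝ) / 2)) ∧
  (ν.sum fun _ c => |c|) ≤ (B + 1) * B

/-! ### Euler products -/

/-- The conditions on the sizes of the multiplicities. -/
def Sized (μ : Nat.Primes → ℂ →₀ ℤ) (B : ℕ) : Prop :=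
  (∀ (p : Nat.Primes) (α : ℂ), μ p α ≠ 0 →
      ∃ w : ℤ, |w| ≤ B ∧ ‖α‖ = ((p : ℕ) : ℝ) ^ ((w : ℝ) / 2)) ∧
    (∀ p : Nat.Primes, ((μ p).sum fun _ c => |c|) ≤ B)

open scoped Classical in
/-- Convergence of the Euler products. -/
def SMult : Prop := ∀ (μ : Nat.Primes → ℂ →₀ ℤ) (B : ℕ), Sized μ B → ∀ w : ℤ, ∃ c : ℝ,
  ∀ s : ℂ, c < s.re → Multipliable (fun p : Nat.Primes => (μ p).prod fun α c =>
    if ‖α‖ = ((p : ℕ) : ℝ) ^ ((w : ℝ) / 2) then (1 - α * ((p : ℕ) : ℂ) ^ (-s)) ^ (-c) else 1)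

/-- Multiplicativity of the Euler products. -/
def SAdd : Prop := ∀ (μ ν : Nat.Primes → ℂ →₀ ℤ) (B : ℕ), Sized μ B → Sized ν B → ∀ w : ℤ,
  ∃ c : ℝ, ∀ s : ℂ, c < s.re →
    Lfun (fun p => μ p + ν p) w s = Lfun μ w s * Lfun ν w s

/-- Shift of the Euler products. -/
def SShift : Prop := ∀ (μ ν : Nat.Primes → ℂ →₀ ℤ),
  (∀ (p : Nat.Primes) (α : ℂ), ν p (((p : ℕ) : ℂ) * α) = μ p α) →
  ∀ (w : ℤ) (s : ℂ), Lfun ν (w + 2) s = Lfun μ w (s - 1)

/-- Closure of the class of counts with all parts in `G`. -/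
def SClosed : Prop := ∀ G : Family, Closed (PartsIn G)

/-! ### Counting over finite fields -/

/-- The skew computation of polynomials: a linear system in `z`, with coefficients linear in
`(1, x)`, whose space of solutions has dimension one or zero according to whether `x` is a common
zero of the polynomials or not. -/
def SGadget : Prop := ∀ (m : ℕ) (F : Finset (MvPolynomial (Fin m) ℤ)),
  ∃ (a b : ℕ) (T : Fin (m + 1) → Fin a → Fin b → ℤ),
    (∀ i j l, T i j l = -1 ∨ T i j l = 0 ∨ T i j l = 1) ∧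
    ∀ (K : Type) [Field K] [Finite K] (x : Fin m → K),
      ((∀ f ∈ F, MvPolynomial.aeval x f = 0) →
        cnt (fun z : Fin b → K => ∀ j, ∑ i, ∑ l,
          (T i j l : K) * (Fin.cons 1 x : Fin (m + 1) → K) i * z l = 0) = Nat.card K) ∧
      (¬ (∀ f ∈ F, MvPolynomial.aeval x f = 0) →
        cnt (fun z : Fin b → K => ∀ j, ∑ i, ∑ l,
          (T i j l : K) * (Fin.cons 1 x : Fin (m + 1) → K) i * z l = 0) = 1)

/-- Points of a linear section of a Segre variety and of its double cone. -/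
def SCone : Prop := ∀ (K : Type) [Field K] [Finite K] (n a b : ℕ)
  (T : Fin n → Fin a → Fin b → K),
  ((Nat.card K : ℤ) - 1) * (((Nat.card K : ℤ) - 1) *
    (Nat.card {z : ℙ K (Fin a → K) × ℙ K (Fin b → K) //
      ∀ i, ∑ j, ∑ l, T i j l * z.1.rep j * z.2.rep l = 0} : ℤ)) =
  cnt (fun z : (Fin a → K) × (Fin b → K) => ∀ i, ∑ j, ∑ l, T i j l * z.1 j * z.2 l = 0)
    - (Nat.card K : ℤ) ^ a - (Nat.card K : ℤ) ^ b + 1

/-- Two flattenings of a trilinear form. -/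
def SFlat : Prop := ∀ (K : Type) [Field K] [Finite K] (n a b : ℕ)
  (T : Fin n → Fin a → Fin b → K),
  (Nat.card K : ℤ) ^ n *
    cnt (fun z : (Fin a → K) × (Fin b → K) => ∀ i, ∑ j, ∑ l, T i j l * z.1 j * z.2 l = 0) =
  (Nat.card K : ℤ) ^ a *
    cnt (fun z : (Fin n → K) × (Fin b → K) => ∀ j, ∑ i, ∑ l, T i j l * z.1 i * z.2 l = 0)

/-- Dehomogenisation in the first coordinate. -/
def SDehom : Prop := ∀ (K : Type) [Field K] [Finite K] (m a b : ℕ)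
  (T : Fin (m + 1) → Fin a → Fin b → K),
  cnt (fun z : (Fin (m + 1) → K) × (Fin b → K) =>
    ∀ j, ∑ i, ∑ l, T i j l * z.1 i * z.2 l = 0) =
  ((Nat.card K : ℤ) - 1) * cnt (fun z : (Fin m → K) × (Fin b → K) =>
    ∀ j, ∑ i, ∑ l, T i j l * (Fin.cons 1 z.1 : Fin (m + 1) → K) i * z.2 l = 0) +
  cnt (fun z : (Fin m → K) × (Fin b → K) =>
    ∀ j, ∑ i : Fin m, ∑ l, T i.succ j l * z.1 i * z.2 l = 0)

/-- From linear sections to affine systems in `m` variables. -/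
def SAffine : Prop := ∀ (C : Counts → Prop) (_ : Closed C) (m : ℕ), SegreIn C m →
  ∀ F : Finset (MvPolynomial (Fin m) ℤ),
    C (fun p k => cnt (fun x : Fin m → FF p k => ∀ f ∈ F, MvPolynomial.aeval x f = 0))

/-- From linear sections to projective schemes. -/
def SBA : Prop := ∀ (C : Counts → Prop) (_ : Closed C) (m : ℕ), SegreIn C m → ProjIn C m

/-- Rank and minors. -/
def SMinor : Prop := ∀ (K : Type) [Field K] (a b r : ℕ) (M : Matrix (Fin a) (Fin b) K),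
  M.rank ≤ r ↔ ∀ (f : Fin (r + 1) → Fin a) (g : Fin (r + 1) → Fin b),
    (M.submatrix f g).det = 0

/-- The number of solutions of a linear system. -/
def SKer : Prop := ∀ (K : Type) [Field K] [Finite K] (a b : ℕ) (M : Matrix (Fin a) (Fin b) K),
  (Nat.card K : ℤ) ^ M.rank * cnt (fun z : Fin b → K => M.mulVec z = 0) = (Nat.card K : ℤ) ^ b

/-- From projective schemes to linear sections. -/
def SAB : Prop := ∀ (C : Counts → Prop) (_ : Closed C) (m : ℕ), ProjIn C m → SegreIn C m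

end Pool.Agent.H90.HW
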